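import Mathlib

set_option autoImplicit false

/-!
Directed p-domination in orientations of the complete r-uniform hypergraph on `Fin n`.
-/

namespace Pool.Agent.Helper39

/-- An orientation of the complete `r`-uniform hypergraph `H(n,r)` on the vertex set `Fin n`:
every `r`-subset `E` is given a linear ordering `ord E 0, ord E 1, ..., ord E (r-1)` of its
`r` vertices (an injective map `Fin r → Fin n` with all its values in `E`, hence a bijection
onto `E`). The values of `ord` on sets of another size play no role. -/
structure Orientation (n r : ℕ) where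
  ord : Finset (Fin n) → Fin r → Fin n
  inj : ∀ E : Finset (Fin n), E.card = r → Function.Injective (ord E)
  mem : ∀ E : Finset (Fin n), E.card = r → ∀ i : Fin r, ord E i ∈ E

/-- `S` is a directed `p`-dominating set of `D`: every vertex `u` outside `S` lies in some
edge `E` whose first `p` vertices (in the ordering of `E`) all belong to `S`. -/
def IsPDominating {n r : ℕ} (D : Orientation n r) (p : ℕ) (S : Finset (Fin n)) : Prop :=
  ∀ u : Fin n, u ∉ S → ∃ E : Finset (Fin n), E.card = r ∧ u ∈ E ∧
    ∀ i : Fin r, (i : ℕ) < p → D.ord E i ∈ S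

/-- The directed `p`-domination number of the orientation `D`: the minimum size of a directed
`p`-dominating set. -/
noncomputable def gammaD {n r : ℕ} (p : ℕ) (D : Orientation n r) : ℕ :=
  sInf {m : ℕ | ∃ S : Finset (Fin n), IsPDominating D p S ∧ S.card = m}

/-- The upper directed `p`-domination number of `H(n,r)`: the maximum of `gammaD p D` over all
orientations `D`. -/
noncomputable def GammaUp (p n r : ℕ) : ℕ :=
  sSup {m : ℕ | ∃ D : Orientation n r, gammaD p D = m}

theorem gammaD_le {n r p : ℕ} (D : Orientation n r) (S : Finset (Fin n))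
    (h : IsPDominating D p S) : gammaD p D ≤ S.card :=
  Nat.sInf_le ⟨S, h, rfl⟩

theorem isPDominating_univ {n r p : ℕ} (D : Orientation n r) :
    IsPDominating D p Finset.univ := fun u hu => absurd (Finset.mem_univ u) hu

theorem exists_min {n r p : ℕ} (D : Orientation n r) :
    ∃ S : Finset (Fin n), IsPDominating D p S ∧ S.card = gammaD p D :=
  Nat.sInf_mem (s := {m : ℕ | ∃ S : Finset (Fin n), IsPDominating D p S ∧ S.card = m})
    ⟨_, Finset.univ, isPDominating_univ D, rfl⟩

theorem gammaD_le_n {n r p : ℕ} (D : Orientation n r) : gammaD p D ≤ n := by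
  have := gammaD_le (p := p) D Finset.univ (isPDominating_univ D)
  simpa using this

theorem bddAbove_gammaD {n r p : ℕ} :
    BddAbove {m : ℕ | ∃ D : Orientation n r, gammaD p D = m} :=
  ⟨n, by rintro m ⟨D, rfl⟩; exact gammaD_le_n D⟩

theorem gammaD_le_GammaUp {n r p : ℕ} (D : Orientation n r) :
    gammaD p D ≤ GammaUp p n r :=
  le_csSup bddAbove_gammaD ⟨D, rfl⟩

/-- Lower bound criterion. -/
theorem le_GammaUp_of {n r p k : ℕ} (D : Orientation n r)
    (h : ∀ S : Finset (Fin n), IsPDominating D p S → k ≤ S.card) :
    k ≤ GammaUp p n r := by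
  obtain ⟨S, hS, hc⟩ := exists_min (p := p) D
  exact le_trans (hc ▸ h S hS) (gammaD_le_GammaUp D)

/-- Upper bound criterion. -/
theorem GammaUp_le_of {n r p k : ℕ}
    (h : ∀ D : Orientation n r, ∃ S : Finset (Fin n), IsPDominating D p S ∧ S.card ≤ k) :
    GammaUp p n r ≤ k := by
  unfold GammaUp
  by_cases hne : {m : ℕ | ∃ D : Orientation n r, gammaD p D = m}.Nonempty
  · apply csSup_le hne
    rintro m ⟨D, rfl⟩
    obtain ⟨S, hS, hc⟩ := h D
    exact le_trans (gammaD_le D S hS) hc
  · rw [Set.not_nonempty_iff_eq_empty] at hne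
    rw [hne]; simp

end Pool.Agent.Helper39
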