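import Mathlib

set_option autoImplicit false

/-!
A random two-colouring of a complete bipartite graph in which all `t`-sets on one side have a
common neighbour in the first colour and all `k`-sets on the other side have a common neighbour
in the second colour, inside each of several blocks.
-/

namespace Pool.Agent.Helper39

open Finset

theorem card_pattern {Y : Type*} [Fintype Y] [DecidableEq Y] {k : ℕ} (f : Fin k → Y) (c : Bool) :
    Fintype.card (Y → Bool) ≤
      (univ.filter (fun z : Y → Bool => ∀ i, z (f i) = !c)).card * 2 ^ k := by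
  classical
  have h1 : 2 ^ k = Fintype.card (Fin k → Bool) := by simp
  rw [h1, ← Finset.card_univ (α := Fin k → Bool), ← Finset.card_product, ← Finset.card_univ]
  apply Finset.card_le_card_of_injOn
    (fun z : Y → Bool => ((fun y => if y ∈ Set.range f then !c else z y : Y → Bool),
      (fun i => z (f i))))
  · intro z _
    simp
  · intro z _ z' _ h
    simp only [Prod.mk.injEq] at h
    obtain ⟨h1, h2⟩ := h
    funext y
    by_cases hy : y ∈ Set.range f
    · obtain ⟨i, rfl⟩ := hy
      exact congrFun h2 i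
    · have := congrFun h1 y
      simpa [hy] using this

theorem card_bad {X Y : Type*} [Fintype X] [Fintype Y] [DecidableEq X] [DecidableEq Y] {k : ℕ}
    (f : Fin k → Y) (c : Bool) (A : Finset X) :
    ((univ.filter (fun H : X → Y → Bool => ∀ x ∈ A, ∃ i, H x (f i) = c)).card : ℝ) ≤
      Real.exp (-(A.card : ℝ) / 2 ^ k) * (Fintype.card (X → Y → Bool) : ℝ) := by
  classical
  set P := univ.filter (fun z : Y → Bool => ∀ i, z (f i) = !c) with hP
  have h1 : (univ.filter (fun H : X → Y → Bool => ∀ x ∈ A, ∃ i, H x (f i) = c)) =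
      Fintype.piFinset (fun x => if x ∈ A then Pᶜ else univ) := by
    ext H
    simp only [mem_filter, mem_univ, true_and, Fintype.mem_piFinset]
    constructor
    · intro h x
      by_cases hx : x ∈ A
      · simp only [hx, if_true]
        rw [hP, Finset.mem_compl, mem_filter]
        rintro ⟨-, h2⟩
        obtain ⟨i, hi⟩ := h x hx
        have := h2 i
        rw [hi] at this
        cases c <;> simp at this
      · simp [hx]
    · intro h x hx
      have := h x
      simp only [hx, if_true] at this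
      rw [hP, Finset.mem_compl, mem_filter] at this
      by_contra hcon
      push Not at hcon
      apply this
      refine ⟨mem_univ _, fun i => ?_⟩
      have := hcon i
      revert this
      cases c <;> cases H x (f i) <;> simp
  rw [h1, Fintype.card_piFinset]
  have h2 : ∏ x, (if x ∈ A then Pᶜ else univ : Finset (Y → Bool)).card
      = (Pᶜ).card ^ A.card * (Fintype.card (Y → Bool)) ^ (Aᶜ).card := by
    rw [← Finset.prod_mul_prod_compl A]
    congr 1
    · rw [Finset.prod_congr rfl (g := fun _ => (Pᶜ).card)]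
      · simp
      · intro x hx; simp [hx]
    · rw [Finset.prod_congr rfl (g := fun _ => Fintype.card (Y → Bool))]
      · simp
      · intro x hx
        rw [Finset.mem_compl] at hx
        simp [hx]
  rw [h2]
  set Z : ℝ := (Fintype.card (Y → Bool) : ℝ) with hZ
  have hZ0 : 0 ≤ Z := by positivity
  have h3 : ((Pᶜ).card : ℝ) ≤ Real.exp (-(1 : ℝ) / 2 ^ k) * Z := by
    have h4 : Z ≤ (P.card : ℝ) * 2 ^ k := by
      have := card_pattern f c
      rw [hZ]
      exact_mod_cast this
    have h5 : ((Pᶜ).card : ℝ) = Z - P.card := by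
      rw [Finset.card_compl, Nat.cast_sub (Finset.card_le_univ P)]
    have h6 : Z / 2 ^ k ≤ P.card := by
      rw [div_le_iff₀ (by positivity)]
      exact h4
    have h7 : 1 - (1 : ℝ) / 2 ^ k ≤ Real.exp (-(1 : ℝ) / 2 ^ k) := by
      have := Real.add_one_le_exp (-(1 : ℝ) / 2 ^ k)
      have h8 : -(1 : ℝ) / 2 ^ k = - (1 / 2 ^ k) := by ring
      rw [h8] at this ⊢
      linarith
    calc ((Pᶜ).card : ℝ) ≤ Z - Z / 2 ^ k := by rw [h5]; linarith
      _ = (1 - (1 : ℝ) / 2 ^ k) * Z := by ring
      _ ≤ _ := mul_le_mul_of_nonneg_right h7 hZ0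
  have h4 : (Fintype.card (X → Y → Bool) : ℝ) = Z ^ A.card * Z ^ (Aᶜ).card := by
    rw [← pow_add, Finset.card_add_card_compl, hZ]
    rw [Fintype.card_fun (α := X)]
    push_cast
    rfl
  rw [h4]
  push_cast
  calc ((Pᶜ).card : ℝ) ^ A.card * Z ^ (Aᶜ).card
      ≤ (Real.exp (-(1 : ℝ) / 2 ^ k) * Z) ^ A.card * Z ^ (Aᶜ).card := by
        apply mul_le_mul_of_nonneg_right _ (by positivity)
        exact pow_le_pow_left₀ (by positivity) h3 _
    _ = Real.exp (-(A.card : ℝ) / 2 ^ k) * (Z ^ A.card * Z ^ (Aᶜ).card) := by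
        rw [mul_pow, ← Real.exp_nat_mul]
        rw [show (A.card : ℝ) * (-(1 : ℝ) / 2 ^ k) = -(A.card : ℝ) / 2 ^ k by ring]
        ring

/-- The existence of the two-colouring, under two numerical conditions. -/
theorem exists_colouring (k t K b M : ℕ)
    (h1 : (2 : ℝ) * ((K : ℝ) * b) ^ t < Real.exp ((M : ℝ) / 2 ^ t))
    (h2 : (2 : ℝ) * ((M : ℝ) ^ k * K) ≤ Real.exp ((b : ℝ) / 2 ^ k)) :
    ∃ H : Fin K × Fin b → Fin M → Bool,
      (∀ g : Fin t → Fin K × Fin b, ∃ y, ∀ i, H (g i) y = true) ∧
      (∀ (f : Fin k → Fin M) (β : Fin K), ∃ x, ∀ i, H (β, x) (f i) = false) := by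
  classical
  by_contra hcon
  push Not at hcon
  let Ω := (Fin K × Fin b → Fin M → Bool)
  let J := (Fin t → Fin K × Fin b) ⊕ ((Fin k → Fin M) × Fin K)
  let B : J → Finset Ω := fun j => match j with
    | Sum.inl g => univ.filter (fun H : Ω => ∀ y : Fin M, ∃ i, H (g i) y = false)
    | Sum.inr p => univ.filter (fun H : Ω => ∀ x : Fin b, ∃ i, H (p.2, x) (p.1 i) = true)
  have hcover : (univ : Finset Ω) ⊆ (univ : Finset J).biUnion B := by
    intro H _
    rw [Finset.mem_biUnion]
    by_cases hg : ∀ g : Fin t → Fin K × Fin b, ∃ y, ∀ i, H (g i) y = true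
    · obtain ⟨f, β, hfβ⟩ := hcon H hg
      refine ⟨Sum.inr (f, β), mem_univ _, ?_⟩
      simp only [B, mem_filter, mem_univ, true_and]
      intro x
      obtain ⟨i, hi⟩ := hfβ x
      exact ⟨i, by simpa using hi⟩
    · push Not at hg
      obtain ⟨g, hg⟩ := hg
      refine ⟨Sum.inl g, mem_univ _, ?_⟩
      simp only [B, mem_filter, mem_univ, true_and]
      intro y
      obtain ⟨i, hi⟩ := hg y
      exact ⟨i, by simpa using hi⟩
  have hΩ : 0 < (Fintype.card Ω : ℝ) := by
    have : 0 < Fintype.card Ω := Fintype.card_pos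
    exact_mod_cast this
  have hcard : (Fintype.card Ω : ℝ) ≤ ∑ j : J, ((B j).card : ℝ) := by
    have := (Finset.card_le_card hcover).trans Finset.card_biUnion_le
    rw [Finset.card_univ] at this
    exact_mod_cast this
  have hinl : ∀ g : Fin t → Fin K × Fin b, ((B (Sum.inl g)).card : ℝ) ≤
      Real.exp (-(M : ℝ) / 2 ^ t) * Fintype.card Ω := by
    intro g
    have := card_bad (X := Fin M) g false univ
    rw [Finset.card_univ, Fintype.card_fin] at this
    have e : Fintype.card (Fin M → Fin K × Fin b → Bool) = Fintype.card Ω :=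
      Fintype.card_congr (Equiv.piComm _)
    rw [e] at this
    refine le_trans (le_of_eq ?_) this
    norm_cast
    apply Finset.card_bij (fun (H : Ω) _ => fun y x => H x y)
    · intro H hH
      simp only [B, mem_filter, mem_univ, true_and] at hH ⊢
      intro y _
      exact hH y
    · intro H _ H' _ h
      funext x y
      exact congrFun (congrFun h y) x
    · intro H hH
      refine ⟨fun x y => H y x, ?_, rfl⟩
      simp only [B, mem_filter, mem_univ, true_and] at hH ⊢
      intro y
      exact hH y trivial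
  have hinr : ∀ p : (Fin k → Fin M) × Fin K, ((B (Sum.inr p)).card : ℝ) ≤
      Real.exp (-(b : ℝ) / 2 ^ k) * Fintype.card Ω := by
    intro p
    have := card_bad (X := Fin K × Fin b) p.1 true (univ.image (fun x : Fin b => (p.2, x)))
    have hc : (univ.image (fun x : Fin b => (p.2, x))).card = b := by
      rw [Finset.card_image_of_injective _ (fun x y h => by simpa using h)]
      simp
    rw [hc] at this
    refine le_trans (le_of_eq ?_) this
    norm_cast
    apply congrArg
    ext H
    simp [B]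
  have hsum : ∑ j : J, ((B j).card : ℝ) ≤
      (((K : ℝ) * b) ^ t * Real.exp (-(M : ℝ) / 2 ^ t)
        + ((M : ℝ) ^ k * K) * Real.exp (-(b : ℝ) / 2 ^ k)) * Fintype.card Ω := by
    rw [Fintype.sum_sum_type]
    have e1 : ∑ g : Fin t → Fin K × Fin b, ((B (Sum.inl g)).card : ℝ) ≤
        ∑ g : Fin t → Fin K × Fin b, Real.exp (-(M : ℝ) / 2 ^ t) * Fintype.card Ω :=
      Finset.sum_le_sum (fun g _ => hinl g)
    have e2 : ∑ p : (Fin k → Fin M) × Fin K, ((B (Sum.inr p)).card : ℝ) ≤
        ∑ p : (Fin k → Fin M) × Fin K, Real.exp (-(b : ℝ) / 2 ^ k) * Fintype.card Ω :=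
      Finset.sum_le_sum (fun p _ => hinr p)
    rw [Finset.sum_const, nsmul_eq_mul, Finset.card_univ] at e1 e2
    have c1 : (Fintype.card (Fin t → Fin K × Fin b) : ℝ) = ((K : ℝ) * b) ^ t := by simp
    have c2 : (Fintype.card ((Fin k → Fin M) × Fin K) : ℝ) = (M : ℝ) ^ k * K := by simp
    rw [c1] at e1
    rw [c2] at e2
    calc _ ≤ _ := add_le_add e1 e2
      _ = _ := by ring
  have hp1 : 0 < Real.exp ((M : ℝ) / 2 ^ t) := Real.exp_pos _
  have hp2 : 0 < Real.exp ((b : ℝ) / 2 ^ k) := Real.exp_pos _
  have h3 : ((K : ℝ) * b) ^ t * Real.exp (-(M : ℝ) / 2 ^ t) < 1 / 2 := by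
    rw [neg_div, Real.exp_neg, ← div_eq_mul_inv, div_lt_iff₀ hp1]
    linarith
  have h4 : ((M : ℝ) ^ k * K) * Real.exp (-(b : ℝ) / 2 ^ k) ≤ 1 / 2 := by
    rw [neg_div, Real.exp_neg, ← div_eq_mul_inv, div_le_iff₀ hp2]
    linarith
  nlinarith

end Pool.Agent.Helper39
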