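import Pool.Agent.Helper39.Digraph
import Pool.Agent.Helper39.Family

set_option autoImplicit false

/-!
Digraphs without closed walks of length at most `G + 1` in which every `k` vertices have a common
out-neighbour, on at most `2 ^ (C_G * k ^ G)` vertices.
-/

namespace Pool.Agent.Helper39

open Finset

/-- Vertices: for each `a < G` a family of levels indexed by `Fin a → Fin k` (for `a = 0` this is
the level of the vertex itself), and an index of a set of levels. -/
abbrev HVert (Lv : Type) (G k M : ℕ) : Type :=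
  ((Σ a : Fin G, (Fin a → Fin k)) → Lv) × Fin M

/-- The levels recorded `a` steps back. -/
def hist {Lv : Type} {G k M : ℕ} (H : Lv → Fin M → Bool) (v : HVert Lv G k M) (a : ℕ) : Set Lv :=
  {l | (∃ h : a < G, ∃ x : Fin a → Fin k, v.1 ⟨⟨a, h⟩, x⟩ = l) ∨ (a = G ∧ H l v.2 = true)}

/-- The level of a vertex. -/
def lev {Lv : Type} {G k M : ℕ} (hG : 0 < G) (v : HVert Lv G k M) : Lv :=
  v.1 ⟨⟨0, hG⟩, Fin.elim0⟩

/-- The history digraph. -/
def HN {Lv : Type} {G k M : ℕ} (hG : 0 < G) (H : Lv → Fin M → Bool) (v w : HVert Lv G k M) : Prop :=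
  (∀ a ≤ G, lev hG w ∉ hist H v a) ∧ (∀ a < G, hist H v a ⊆ hist H w (a + 1))

theorem hist_pw {Lv : Type} {G k M : ℕ} (hG : 0 < G) (H : Lv → Fin M → Bool) (m : ℕ) (hm : m ≤ G)
    (v w : HVert Lv G k M) (h : pw (HN hG H) m v w) : lev hG v ∈ hist H w m := by
  induction m generalizing w with
  | zero =>
    have : v = w := h
    subst this
    exact Or.inl ⟨hG, Fin.elim0, rfl⟩
  | succ m ih =>
    obtain ⟨c, hc, hcw⟩ := h
    exact hcw.2 m (by omega) (ih (by omega) c hc)

theorem HN_noShort {Lv : Type} {G k M : ℕ} (hG : 0 < G) (H : Lv → Fin M → Bool) :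
    NoShort (HN (k := k) hG H) (G + 1) := by
  intro m hm1 hm v hv
  obtain ⟨n, rfl⟩ : ∃ n, m = n + 1 := ⟨m - 1, by omega⟩
  obtain ⟨c, hc, hcv⟩ := hv
  exact hcv.1 n (by omega) (hist_pw hG H n (by omega) v c hc)

theorem card_sigma_le (G k : ℕ) (hk : 1 ≤ k) :
    k * Fintype.card (Σ a : Fin G, (Fin a → Fin k)) ≤ G * k ^ G := by
  rw [Fintype.card_sigma]
  simp only [Fintype.card_fun, Fintype.card_fin]
  rw [Finset.mul_sum]
  calc ∑ a : Fin G, k * k ^ (a : ℕ) ≤ ∑ _a : Fin G, k ^ G := by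
        apply Finset.sum_le_sum
        intro a _
        rw [← pow_succ']
        exact Nat.pow_le_pow_right hk a.2
    _ = G * k ^ G := by simp

theorem HN_common {K b G k M : ℕ} (hG : 0 < G) (hk : 1 ≤ k) (hK : G * k ^ G < K)
    (H : Fin K × Fin b → Fin M → Bool)
    (h1 : ∀ g : Fin (k ^ G) → Fin K × Fin b, ∃ y, ∀ i, H (g i) y = true)
    (h2 : ∀ (f : Fin k → Fin M) (β : Fin K), ∃ x, ∀ i, H (β, x) (f i) = false) :
    Common (HN (k := k) hG H) k := by
  classical
  intro f
  -- a block not used by the recorded levels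
  have hβ : ∃ β : Fin K, ∀ (i : Fin k) (q : Σ a : Fin G, (Fin a → Fin k)), ((f i).1 q).1 ≠ β := by
    by_contra hcon
    push Not at hcon
    have hsurj : Function.Surjective
        (fun p : Fin k × (Σ a : Fin G, (Fin a → Fin k)) => ((f p.1).1 p.2).1) := by
      intro β
      obtain ⟨i, q, hq⟩ := hcon β
      exact ⟨(i, q), hq⟩
    have := Fintype.card_le_of_surjective _ hsurj
    rw [Fintype.card_prod, Fintype.card_fin, Fintype.card_fin] at this
    have h3 := card_sigma_le G k hk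
    omega
  obtain ⟨β, hβ⟩ := hβ
  obtain ⟨x0, hx0⟩ := h2 (fun i => (f i).2) β
  set m : Fin K × Fin b := (β, x0) with hm
  -- the last set
  obtain ⟨G', rfl⟩ : ∃ G', G = G' + 1 := ⟨G - 1, by omega⟩
  have e : (Fin (G' + 1) → Fin k) ≃ Fin (k ^ (G' + 1)) := Fintype.equivFinOfCardEq (by simp)
  obtain ⟨y, hy⟩ := h1 (fun i => (f (e.symm i 0)).1 ⟨⟨G', by omega⟩, Fin.tail (e.symm i)⟩)
  let w1 : (Σ a : Fin (G' + 1), (Fin a → Fin k)) → Fin K × Fin b := fun q =>
    match q with
    | ⟨⟨0, _⟩, _⟩ => m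
    | ⟨⟨a + 1, h⟩, x⟩ => (f (x 0)).1 ⟨⟨a, by omega⟩, Fin.tail x⟩
  refine ⟨(w1, y), fun i => ⟨?_, ?_⟩⟩
  · intro a ha
    have hlev : lev hG ((w1, y) : HVert (Fin K × Fin b) (G' + 1) k M) = m := rfl
    rw [hlev]
    rintro (⟨h, x, hx⟩ | ⟨h, hx⟩)
    · apply hβ i ⟨⟨a, h⟩, x⟩
      rw [hx]
    · have := hx0 i
      rw [this] at hx
      simp at hx
  · intro a ha l hl
    rcases hl with ⟨h, x, hx⟩ | ⟨h, hx⟩
    · by_cases hlast : a + 1 < G' + 1
      · left
        refine ⟨hlast, (Fin.cons i x : Fin (a + 1) → Fin k), ?_⟩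
        exact hx
      · right
        have haG : a = G' := by omega
        subst haG
        refine ⟨rfl, ?_⟩
        have := hy (e (Fin.cons i x : Fin (a + 1) → Fin k))
        rw [Equiv.symm_apply_apply] at this
        rw [← hx]
        exact this
    · omega

end Pool.Agent.Helper39
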