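import Pool.Agent.Helper39.Lower

set_option autoImplicit false

/-!
Explicit conditions under which the criterion of the lower bound holds.
-/

namespace Pool.Agent.Helper39

open Finset

/-- A vertex of small out-degree. -/
theorem exists_small_out {V : Type*} {R : V → V → Prop} [DecidableRel R]
    (hanti : ∀ a b, R a b → ¬ R b a) (X : Finset V) (hX : X.Nonempty) :
    ∃ v ∈ X, 2 * (X.filter (fun w => R v w)).card + 1 ≤ X.card := by
  classical
  by_contra hcon
  push Not at hcon
  have h1 : ∑ v ∈ X, X.card ≤ ∑ v ∈ X, 2 * (X.filter (fun w => R v w)).card :=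
    Finset.sum_le_sum (fun v hv => by have := hcon v hv; omega)
  rw [← Finset.mul_sum, sum_out, Finset.sum_const, smul_eq_mul] at h1
  have h2 : 2 * ((X ×ˢ X).filter (fun p => R p.1 p.2)).card ≤ X.card * X.card - X.card := by
    rw [← Finset.offDiag_card, two_mul]
    have h3 : ((X ×ˢ X).filter (fun p => R p.1 p.2)).card
        = ((X ×ˢ X).filter (fun p => R p.2 p.1)).card := by
      exact (sum_out (R := R) X).symm.trans (sum_in (R := fun a b => R b a) X)
    nth_rewrite 2 [h3]
    rw [← Finset.card_union_of_disjoint]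
    · apply Finset.card_le_card
      intro p hp
      rw [Finset.mem_union, Finset.mem_filter, Finset.mem_filter] at hp
      rw [Finset.mem_offDiag]
      have hpp : p ∈ X ×ˢ X := by rcases hp with h | h <;> exact h.1
      rw [Finset.mem_product] at hpp
      refine ⟨hpp.1, hpp.2, ?_⟩
      intro heq
      rcases hp with h | h
      · exact hanti _ _ h.2 (by rw [← heq]; have := h.2; rwa [← heq] at this)
      · exact hanti _ _ h.2 (by rw [← heq]; have := h.2; rwa [← heq] at this)
    · rw [Finset.disjoint_left]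
      intro p hp hp'
      rw [Finset.mem_filter] at hp hp'
      exact hanti _ _ hp.2 hp'.2
  have h4 : 0 < X.card := Finset.card_pos.mpr hX
  have h5 : X.card ≤ X.card * X.card := Nat.le_mul_self _
  omega

theorem halving {V : Type*} {R : V → V → Prop} [DecidableRel R]
    (hanti : ∀ a b, R a b → ¬ R b a) (lam : ℕ) (hlam : 1 ≤ lam) (i : ℕ) :
    ∀ X : Finset V, X.Nonempty →
      (∀ f : Fin i → V, (∀ l, f l ∈ X) → lam ≤ (X.filter (fun u => ∀ l, R (f l) u)).card) →
      2 ^ i * (lam + 1) ≤ X.card + 1 := by
  classical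
  induction i with
  | zero =>
    intro X _ h
    have := h Fin.elim0 (fun l => l.elim0)
    have h2 : (X.filter (fun u => ∀ l : Fin 0, R (Fin.elim0 l) u)) = X := by
      apply Finset.filter_true_of_mem
      intro u _ l
      exact l.elim0
    have h3 : lam ≤ X.card := by
      refine le_trans this (Finset.card_le_card (Finset.filter_subset _ _))
    omega
  | succ i ih =>
    intro X hX h
    obtain ⟨v, hvX, hv⟩ := exists_small_out hanti X hX
    have hne : (X.filter (fun w => R v w)).Nonempty := by
      have h1 := h (fun _ => v) (fun _ => hvX)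
      have h2 : (X.filter (fun u => ∀ l : Fin (i + 1), R v u)).Nonempty := by
        rw [← Finset.card_pos]; omega
      obtain ⟨u, hu⟩ := h2
      rw [Finset.mem_filter] at hu
      exact ⟨u, Finset.mem_filter.mpr ⟨hu.1, hu.2 0⟩⟩
    have := ih (X.filter (fun w => R v w)) hne (by
      intro f hf
      have h1 := h (Fin.cons v f) (by
        intro l
        refine Fin.cases ?_ ?_ l
        · simpa using hvX
        · intro l; simpa using (Finset.mem_filter.mp (hf l)).1)
      refine le_trans h1 (Finset.card_le_card ?_)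
      intro u hu
      rw [Finset.mem_filter] at hu ⊢
      rw [Finset.mem_filter]
      refine ⟨⟨hu.1, by simpa using hu.2 0⟩, fun l => by simpa using hu.2 l.succ⟩)
    rw [pow_succ]
    have h3 : 2 ^ i * 2 * (lam + 1) = 2 * (2 ^ i * (lam + 1)) := by ring
    rw [h3]
    omega

/-- The Szekeres–Szekeres bound for oriented graphs: if every `K + 1` vertices have a common
out-neighbour then there are at least `2 ^ K * (K + 3) - 1` vertices. -/
theorem szekeres {V : Type*} [Fintype V] [Nonempty V] {R : V → V → Prop}
    (hanti : ∀ a b, R a b → ¬ R b a) {K : ℕ} (h : Common R (K + 1)) :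
    2 ^ K * (K + 3) ≤ Fintype.card V + 1 := by
  classical
  rw [← Finset.card_univ]
  refine halving hanti (K + 2) (by omega) K Finset.univ Finset.univ_nonempty ?_
  intro f _
  by_contra hcon
  push Not at hcon
  set D := Finset.univ.filter (fun u => ∀ l, R (f l) u) with hD
  have hDne : D.Nonempty := by
    obtain ⟨w0⟩ := (inferInstance : Nonempty V)
    obtain ⟨z, hz⟩ := h (Fin.cons w0 f)
    exact ⟨z, by rw [hD, Finset.mem_filter]; exact ⟨Finset.mem_univ _, fun l => by
      simpa using hz l.succ⟩⟩
  obtain ⟨w, hw⟩ := common_finset h D (by omega) hDne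
  obtain ⟨z, hz⟩ := h (Fin.cons w f)
  have hzD : z ∈ D := by
    rw [hD, Finset.mem_filter]
    exact ⟨Finset.mem_univ _, fun l => by simpa using hz l.succ⟩
  have h1 : R w z := by simpa using hz 0
  exact hanti _ _ h1 (hw z hzD)

theorem pw_iterate {V : Type*} {N : V → V → Prop} (φ : V → V) (hφ : ∀ a, N a (φ a)) (m : ℕ)
    (a : V) : pw N m a (φ^[m] a) := by
  induction m with
  | zero => rfl
  | succ m ih => exact ⟨φ^[m] a, ih, by rw [Function.iterate_succ_apply']; exact hφ _⟩

/-- A digraph on `r` vertices with no closed walk of length at most `g`, where `r ≤ g`, has a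
vertex without out-neighbours. -/
theorem exists_sink {r g : ℕ} (hr : 1 ≤ r) (hrg : r ≤ g) (N : Fin r → Fin r → Prop)
    (hN : NoShort N g) : ∃ f, ∀ u, ¬ N f u := by
  by_contra hcon
  push Not at hcon
  choose φ hφ using hcon
  have hnot : ¬ Function.Injective (fun i : Fin (r + 1) => φ^[i.1] (⟨0, by omega⟩ : Fin r)) := by
    intro h
    have := Fintype.card_le_of_injective _ h
    simp at this
  unfold Function.Injective at hnot
  push Not at hnot
  obtain ⟨i, j, hij, hne⟩ := hnot
  wlog hlt : i < j generalizing i j with H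
  · exact H j i hij.symm hne.symm (lt_of_le_of_ne (not_lt.mp hlt) (Ne.symm hne))
  have h1 := pw_iterate φ hφ (j.1 - i.1) (φ^[i.1] (⟨0, by omega⟩ : Fin r))
  rw [← Function.iterate_add_apply, Nat.sub_add_cancel (by exact hlt.le)] at h1
  rw [← hij] at h1
  refine hN (j.1 - i.1) ?_ ?_ _ h1
  · have : i.1 < j.1 := hlt
    omega
  · have := j.2
    omega

theorem crit_of_le {p r g : ℕ} (hp : 1 ≤ p) (hpr : p ≤ r) (hrg : r ≤ g) : Crit p r g := by
  classical
  intro N hN
  obtain ⟨f, hf⟩ := exists_sink (by omega) hrg N hN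
  obtain ⟨P, hfP, -, hP⟩ := Finset.exists_subsuperset_card_eq (s := {f}) (t := Finset.univ)
    (n := p) (by simp) (by simpa using hp) (by simpa using hpr)
  exact ⟨P, hP, fun u _ => ⟨f, hfP (Finset.mem_singleton_self f), hf u⟩⟩

theorem common_of_not_crit {p r : ℕ} (hpr : p ≤ r) (N : Fin r → Fin r → Prop)
    (h : ∀ P : Finset (Fin r), P.card = p → ∃ u, u ∉ P ∧ ∀ s ∈ P, N s u) : Common N p := by
  classical
  intro f
  obtain ⟨P, hfP, -, hP⟩ := Finset.exists_subsuperset_card_eq (s := Finset.univ.image f)
    (t := Finset.univ) (n := p) (by simp) (by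
      have := Finset.card_image_le (s := Finset.univ) (f := f)
      simpa using this) (by simpa using hpr)
  obtain ⟨u, -, hu⟩ := h P hP
  exact ⟨u, fun i => hu _ (hfP (Finset.mem_image_of_mem f (Finset.mem_univ i)))⟩

theorem crit_of_pow {p r g j : ℕ} (hp : 1 ≤ p) (hpr : p ≤ r) (hj : 1 ≤ j) (hjg : 2 * j ≤ g)
    (h : r + 1 < 2 ^ (p ^ j + 1) ∨ r + 1 < 2 ^ (p ^ j - 1) * (p ^ j + 2)) : Crit p r g := by
  classical
  intro N hN
  by_contra hcon
  push Not at hcon
  have hc : Common N p := common_of_not_crit hpr N (fun P hP => hcon P hP)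
  have hne : Nonempty (Fin r) := ⟨⟨0, by omega⟩⟩
  have hs : NoShort N (2 * j) := fun m hm1 hm => hN m hm1 (by omega)
  rcases h with h | h
  · have := two_pow_pow_le_card hj hs hc
    rw [Fintype.card_fin] at this
    omega
  · obtain ⟨K, hK⟩ : ∃ K, p ^ j = K + 1 := ⟨p ^ j - 1, by
      have : 1 ≤ p ^ j := Nat.one_le_pow _ _ hp
      omega⟩
    have hcj : Common (pw N j) (K + 1) := by
      rw [← hK]
      exact common_pow hc j
    have := szekeres (R := pw N j) (by
      intro a b hab hba
      exact hs (j + j) (by omega) (by omega) a (pw_add hab hba)) hcj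
    rw [Fintype.card_fin] at this
    rw [hK] at h
    simp only [Nat.add_sub_cancel, Nat.add_assoc] at h
    norm_num at h
    omega

end Pool.Agent.Helper39
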