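import Pool.Agent.Helper39.WalkDefs

set_option autoImplicit false

/-!
Digraphs (relations), walks of fixed length, the common out-neighbour property.
-/

namespace Pool.Agent.Helper39

variable {V : Type*}

theorem pw_one {N : V → V → Prop} {a b : V} : pw N 1 a b ↔ N a b := by
  constructor
  · rintro ⟨c, hc, h⟩
    have : a = c := hc
    subst this; exact h
  · intro h; exact ⟨a, rfl, h⟩

theorem pw_add {N : V → V → Prop} {m n : ℕ} {a b c : V} (h1 : pw N m a b) (h2 : pw N n b c) :
    pw N (m + n) a c := by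
  induction n generalizing c with
  | zero => have : b = c := h2; subst this; exact h1
  | succ n ih =>
    obtain ⟨d, hd, h⟩ := h2
    exact ⟨d, ih hd, h⟩

/-- Every family of vertices indexed by `Fin k` has a common out-neighbour. -/
def Common (N : V → V → Prop) (k : ℕ) : Prop :=
  ∀ f : Fin k → V, ∃ u, ∀ i, N (f i) u

theorem common_of_type {N : V → V → Prop} {k : ℕ} (h : Common N k) {ι : Type*} [Fintype ι]
    (hι : Fintype.card ι = k) (f : ι → V) : ∃ u, ∀ i, N (f i) u := by
  let e : ι ≃ Fin k := Fintype.equivFinOfCardEq hι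
  obtain ⟨u, hu⟩ := h (fun i => f (e.symm i))
  exact ⟨u, fun i => by simpa using hu (e i)⟩

theorem common_mono {N : V → V → Prop} {k l : ℕ} (h : Common N k) (hl : l ≤ k)
    (hl1 : 1 ≤ l) : Common N l := by
  intro f
  obtain ⟨u, hu⟩ := h (fun i => f ⟨min i.1 (l - 1), by omega⟩)
  refine ⟨u, fun i => ?_⟩
  have := hu ⟨i.1, by omega⟩
  have hi := i.2
  have h2 : min i.1 (l - 1) = i.1 := by omega
  simpa [h2] using this

theorem common_le_type {N : V → V → Prop} {k : ℕ} (h : Common N k) {ι : Type*} [Fintype ι]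
    (hι : Fintype.card ι ≤ k) [Nonempty ι] (f : ι → V) : ∃ u, ∀ i, N (f i) u := by
  have : Common N (Fintype.card ι) := common_mono h hι Fintype.card_pos
  exact common_of_type this rfl f

theorem common_finset {N : V → V → Prop} {k : ℕ} (h : Common N k) (S : Finset V)
    (hS : S.card ≤ k) (hne : S.Nonempty) : ∃ u, ∀ s ∈ S, N s u := by
  have : Nonempty S := hne.to_subtype
  obtain ⟨u, hu⟩ := common_le_type h (ι := S) (by simpa using hS) (fun s => s.1)
  exact ⟨u, fun s hs => hu ⟨s, hs⟩⟩

theorem common_pw {N : V → V → Prop} {k : ℕ} (h : Common N k) (j : ℕ) :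
    ∀ f : (Fin j → Fin k) → V, ∃ u, ∀ i, pw N j (f i) u := by
  induction j with
  | zero =>
    intro f
    refine ⟨f default, fun i => ?_⟩
    have : i = default := Subsingleton.elim _ _
    subst this; rfl
  | succ j ih =>
    intro f
    have h1 : ∀ c : Fin k, ∃ u, ∀ i : Fin j → Fin k, pw N j (f (Fin.cons c i)) u :=
      fun c => ih (fun i => f (Fin.cons c i))
    choose y hy using h1
    obtain ⟨u, hu⟩ := h y
    refine ⟨u, fun i => ?_⟩
    refine ⟨y (i 0), ?_, hu (i 0)⟩
    have := hy (i 0) (Fin.tail i)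
    rwa [Fin.cons_self_tail] at this

theorem common_pow {N : V → V → Prop} {k : ℕ} (h : Common N k) (j : ℕ) :
    Common (pw N j) (k ^ j) := by
  intro f
  have e : (Fin j → Fin k) ≃ Fin (k ^ j) := Fintype.equivFinOfCardEq (by simp)
  obtain ⟨u, hu⟩ := common_pw h j (fun i => f (e i))
  exact ⟨u, fun i => by simpa using hu (e.symm i)⟩

theorem sum_out {R : V → V → Prop} (X : Finset V) [DecidableRel R] :
    ∑ v ∈ X, (X.filter (fun w => R v w)).card = ((X ×ˢ X).filter (fun p => R p.1 p.2)).card := by
  simp only [Finset.card_filter, Finset.sum_product]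

theorem sum_in {R : V → V → Prop} (X : Finset V) [DecidableRel R] :
    ∑ v ∈ X, (X.filter (fun w => R w v)).card = ((X ×ˢ X).filter (fun p => R p.1 p.2)).card := by
  simp only [Finset.card_filter, Finset.sum_product]
  rw [Finset.sum_comm]

/-- Oriented graphs in which every `K` vertices have a common out-neighbour are large. -/
theorem two_pow_le_card_aux {R : V → V → Prop}
    (hanti : ∀ a b, R a b → ¬ R b a) (K : ℕ) :
    ∀ X : Finset V, X.Nonempty →
      (∀ f : Fin K → V, (∀ i, f i ∈ X) → ∃ u ∈ X, ∀ i, R (f i) u) →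
      2 ^ (K + 1) ≤ X.card + 1 := by
  classical
  induction K with
  | zero =>
    intro X hX h
    have : 0 < X.card := Finset.card_pos.mpr hX
    omega
  | succ K ih =>
    intro X hX h
    -- a vertex of small out-degree
    have hv : ∃ v ∈ X, 2 * (X.filter (fun w => R v w)).card + 1 ≤ X.card := by
      by_contra hcon
      push Not at hcon
      have h1 : ∑ v ∈ X, X.card ≤ ∑ v ∈ X, 2 * (X.filter (fun w => R v w)).card :=
        Finset.sum_le_sum (fun v hv => by have := hcon v hv; omega)
      rw [← Finset.mul_sum, sum_out, Finset.sum_const, smul_eq_mul] at h1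
      have h2 : 2 * ((X ×ˢ X).filter (fun p => R p.1 p.2)).card ≤ X.card * X.card - X.card := by
        rw [← Finset.offDiag_card, two_mul]
        have h3 : ((X ×ˢ X).filter (fun p => R p.1 p.2)).card
            = ((X ×ˢ X).filter (fun p => R p.2 p.1)).card := by
          exact (sum_out (R := R) X).symm.trans (sum_in (R := fun a b => R b a) X)
        nth_rewrite 2 [h3]
        rw [← Finset.card_union_of_disjoint]
        · apply Finset.card_le_card
          intro p hp
          rw [Finset.mem_union, Finset.mem_filter, Finset.mem_filter] at hp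
          rw [Finset.mem_offDiag]
          have hpp : p ∈ X ×ˢ X := by rcases hp with h | h <;> exact h.1
          rw [Finset.mem_product] at hpp
          refine ⟨hpp.1, hpp.2, ?_⟩
          intro heq
          rcases hp with h | h
          · exact hanti _ _ h.2 (by rw [← heq]; have := h.2; rwa [← heq] at this)
          · exact hanti _ _ h.2 (by rw [← heq]; have := h.2; rwa [← heq] at this)
        · rw [Finset.disjoint_left]
          intro p hp hp'
          rw [Finset.mem_filter] at hp hp'
          exact hanti _ _ hp.2 hp'.2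
      have h4 : 0 < X.card := Finset.card_pos.mpr hX
      have h5 : X.card ≤ X.card * X.card := Nat.le_mul_self _
      omega
    obtain ⟨v, hvX, hv⟩ := hv
    have hstep : ∀ f : Fin K → V, (∀ i, f i ∈ X.filter (fun w => R v w)) →
        ∃ u ∈ X.filter (fun w => R v w), ∀ i, R (f i) u := by
      intro f hf
      obtain ⟨u, hu, hfu⟩ := h (Fin.cons v f) (by
        intro i
        refine Fin.cases ?_ ?_ i
        · simpa using hvX
        · intro i; simpa using (Finset.mem_filter.mp (hf i)).1)
      refine ⟨u, ?_, fun i => ?_⟩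
      · rw [Finset.mem_filter]
        refine ⟨hu, ?_⟩
        simpa using hfu 0
      · simpa using hfu i.succ
    have hne : (X.filter (fun w => R v w)).Nonempty := by
      obtain ⟨u, hu, hfu⟩ := h (fun _ => v) (fun _ => hvX)
      exact ⟨u, Finset.mem_filter.mpr ⟨hu, hfu 0⟩⟩
    have := ih _ hne hstep
    rw [pow_succ]
    omega

theorem two_pow_le_card {R : V → V → Prop} [Fintype V] [Nonempty V]
    (hanti : ∀ a b, R a b → ¬ R b a) {K : ℕ} (h : Common R K) :
    2 ^ (K + 1) ≤ Fintype.card V + 1 := by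
  have := two_pow_le_card_aux hanti K Finset.univ Finset.univ_nonempty
    (fun f _ => by obtain ⟨u, hu⟩ := h f; exact ⟨u, Finset.mem_univ _, hu⟩)
  simpa using this

/-- Main bound: a finite digraph with no closed walk of length at most `2 * j` (`j ≥ 1`) in which
every `k` vertices have a common out-neighbour has at least `2 ^ (k ^ j + 1) - 1` vertices. -/
theorem two_pow_pow_le_card {N : V → V → Prop} [Fintype V] [Nonempty V] {k j : ℕ}
    (hj : 1 ≤ j) (hs : NoShort N (2 * j)) (h : Common N k) :
    2 ^ (k ^ j + 1) ≤ Fintype.card V + 1 := by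
  apply two_pow_le_card (R := pw N j) _ (common_pow h j)
  intro a b hab hba
  exact hs (j + j) (by omega) (by omega) a (pw_add hab hba)

theorem pw_succ_left {N : V → V → Prop} {m : ℕ} {a b c : V} (h1 : N a b) (h2 : pw N m b c) :
    pw N (m + 1) a c := by
  have := pw_add (pw_one.mpr h1) h2
  rwa [Nat.add_comm] at this

/-- A mixed common out-neighbour property for the `j`-step and the `j+1`-step relation. -/
theorem joint_common {N : V → V → Prop} {k j a c : ℕ} (h : Common N k) (hac : a + c ≤ k ^ j)
    (ha : 1 ≤ a) (f : Fin a → V) (g : Fin c × Fin k → V) :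
    ∃ u, (∀ i, pw N j (f i) u) ∧ (∀ i, pw N (j + 1) (g i) u) := by
  have h1 : ∀ l : Fin c, ∃ y, ∀ i : Fin k, N (g (l, i)) y := fun l => h (fun i => g (l, i))
  choose y hy using h1
  have : Nonempty (Fin a ⊕ Fin c) := ⟨Sum.inl ⟨0, ha⟩⟩
  obtain ⟨u, hu⟩ := common_le_type (common_pow h j) (ι := Fin a ⊕ Fin c)
    (by simpa using hac) (Sum.elim f y)
  refine ⟨u, fun i => by simpa using hu (Sum.inl i), fun i => ?_⟩
  have h2 : pw N j (y i.1) u := by simpa using hu (Sum.inr i.1)
  exact pw_succ_left (hy i.1 i.2) h2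

theorem min_bound_aux {P M : V → V → Prop} (hPM : ∀ a b, M a b → ¬ P b a)
    (θ : ℝ) (h0 : 0 < θ) (h1 : θ < 1) (s : ℕ) :
    ∀ a b : ℕ, a + b = s → ∀ X : Finset V, X.Nonempty →
      (∀ f : Fin a → V, (∀ i, f i ∈ X) → ∀ g : Fin b → V, (∀ i, g i ∈ X) →
        ∃ u ∈ X, (∀ i, P (f i) u) ∧ (∀ i, M (g i) u)) →
      min (θ⁻¹ ^ a) ((1 - θ)⁻¹ ^ b) ≤ (X.card : ℝ) := by
  classical
  induction s with
  | zero =>
    intro a b hab X hX _
    have ha : a = 0 := by omega
    subst ha
    have : (1 : ℝ) ≤ X.card := by exact_mod_cast Finset.card_pos.mpr hX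
    exact le_trans (min_le_left _ _) (by simpa using this)
  | succ s ih =>
    intro a b hab X hX h
    have hXc : (1 : ℝ) ≤ X.card := by exact_mod_cast Finset.card_pos.mpr hX
    rcases Nat.eq_zero_or_pos a with ha | ha
    · subst ha
      exact le_trans (min_le_left _ _) (by simpa using hXc)
    rcases Nat.eq_zero_or_pos b with hb | hb
    · subst hb
      exact le_trans (min_le_right _ _) (by simpa using hXc)
    -- total counts
    have hcount : ((X ×ˢ X).filter (fun p => P p.1 p.2)).card
        + ((X ×ˢ X).filter (fun p => M p.1 p.2)).card ≤ X.card * X.card := by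
      have e1 : ((X ×ˢ X).filter (fun p => P p.1 p.2)).card
          = ((X ×ˢ X).filter (fun p => P p.2 p.1)).card :=
        (sum_out (R := P) X).symm.trans (sum_in (R := fun a b => P b a) X)
      rw [e1, ← Finset.card_union_of_disjoint, ← Finset.card_product]
      · apply Finset.card_le_card
        intro p hp
        rw [Finset.mem_union, Finset.mem_filter, Finset.mem_filter] at hp
        rcases hp with h | h <;> exact h.1
      · rw [Finset.disjoint_left]
        intro p hp hp'
        rw [Finset.mem_filter] at hp hp'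
        exact hPM _ _ hp'.2 hp.2
    have hpos1 : 0 < θ⁻¹ := inv_pos.mpr h0
    have hpos2 : 0 < (1 - θ)⁻¹ := inv_pos.mpr (by linarith)
    have hge1 : 1 ≤ θ⁻¹ := (one_le_inv₀ h0).mpr h1.le
    have hge2 : 1 ≤ (1 - θ)⁻¹ := (one_le_inv₀ (by linarith)).mpr (by linarith)
    rcases le_or_gt (((X ×ˢ X).filter (fun p => P p.1 p.2)).card : ℝ)
      (θ * (X.card * X.card)) with hcase | hcase
    · -- restrict to an out-neighbourhood of P
      have hv : ∃ v ∈ X, ((X.filter (fun w => P v w)).card : ℝ) ≤ θ * X.card := by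
        by_contra hcon
        push Not at hcon
        have h2 : ∑ v ∈ X, θ * X.card < ∑ v ∈ X, ((X.filter (fun w => P v w)).card : ℝ) :=
          Finset.sum_lt_sum_of_nonempty hX hcon
        rw [Finset.sum_const, nsmul_eq_mul] at h2
        have h3 : (∑ v ∈ X, ((X.filter (fun w => P v w)).card : ℝ))
            = (((X ×ˢ X).filter (fun p => P p.1 p.2)).card : ℝ) := by
          rw [← sum_out (R := P) X]; push_cast; rfl
        rw [h3] at h2
        nlinarith
      obtain ⟨v, hvX, hv⟩ := hv
      obtain ⟨a', rfl⟩ : ∃ a', a = a' + 1 := ⟨a - 1, by omega⟩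
      have hne : (X.filter (fun w => P v w)).Nonempty := by
        obtain ⟨u, hu, hfu, -⟩ := h (fun _ => v) (fun _ => hvX) (fun _ => v) (fun _ => hvX)
        exact ⟨u, Finset.mem_filter.mpr ⟨hu, hfu 0⟩⟩
      have hih := ih a' b (by omega) (X.filter (fun w => P v w)) hne (by
        intro f hf g hg
        obtain ⟨u, hu, hfu, hgu⟩ := h (Fin.cons v f) (by
          intro i
          refine Fin.cases ?_ ?_ i
          · simpa using hvX
          · intro i; simpa using (Finset.mem_filter.mp (hf i)).1) g
          (fun i => (Finset.mem_filter.mp (hg i)).1)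
        refine ⟨u, ?_, fun i => ?_, hgu⟩
        · rw [Finset.mem_filter]
          exact ⟨hu, by simpa using hfu 0⟩
        · simpa using hfu i.succ)
      have h4 : θ⁻¹ * min (θ⁻¹ ^ a') ((1 - θ)⁻¹ ^ b) ≤ X.card := by
        have : min (θ⁻¹ ^ a') ((1 - θ)⁻¹ ^ b) ≤ θ * X.card := le_trans hih hv
        calc θ⁻¹ * min (θ⁻¹ ^ a') ((1 - θ)⁻¹ ^ b) ≤ θ⁻¹ * (θ * X.card) :=
              mul_le_mul_of_nonneg_left this hpos1.le
          _ = X.card := by field_simp
      refine le_trans ?_ h4
      rcases min_cases (θ⁻¹ ^ a') ((1 - θ)⁻¹ ^ b) with hm | hm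
      · rw [hm.1]
        refine le_trans (min_le_left _ _) ?_
        rw [pow_succ, mul_comm]
      · rw [hm.1]
        refine le_trans (min_le_right _ _) ?_
        have : 0 ≤ (1 - θ)⁻¹ ^ b := by positivity
        nlinarith
    · -- restrict to an out-neighbourhood of M
      have hM : (((X ×ˢ X).filter (fun p => M p.1 p.2)).card : ℝ)
          ≤ (1 - θ) * (X.card * X.card) := by
        have : ((((X ×ˢ X).filter (fun p => P p.1 p.2)).card
        + ((X ×ˢ X).filter (fun p => M p.1 p.2)).card : ℕ) : ℝ) ≤ ((X.card * X.card : ℕ) : ℝ) := by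
          exact_mod_cast hcount
        push_cast at this
        linarith
      have hv : ∃ v ∈ X, ((X.filter (fun w => M v w)).card : ℝ) ≤ (1 - θ) * X.card := by
        by_contra hcon
        push Not at hcon
        have h2 : ∑ v ∈ X, (1 - θ) * X.card < ∑ v ∈ X, ((X.filter (fun w => M v w)).card : ℝ) :=
          Finset.sum_lt_sum_of_nonempty hX hcon
        rw [Finset.sum_const, nsmul_eq_mul] at h2
        have h3 : (∑ v ∈ X, ((X.filter (fun w => M v w)).card : ℝ))
            = (((X ×ˢ X).filter (fun p => M p.1 p.2)).card : ℝ) := by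
          rw [← sum_out (R := M) X]; push_cast; rfl
        rw [h3] at h2
        nlinarith
      obtain ⟨v, hvX, hv⟩ := hv
      obtain ⟨b', rfl⟩ : ∃ b', b = b' + 1 := ⟨b - 1, by omega⟩
      have hne : (X.filter (fun w => M v w)).Nonempty := by
        obtain ⟨u, hu, -, hfu⟩ := h (fun _ => v) (fun _ => hvX) (fun _ => v) (fun _ => hvX)
        exact ⟨u, Finset.mem_filter.mpr ⟨hu, hfu 0⟩⟩
      have hih := ih a b' (by omega) (X.filter (fun w => M v w)) hne (by
        intro f hf g hg
        obtain ⟨u, hu, hfu, hgu⟩ := h f (fun i => (Finset.mem_filter.mp (hf i)).1)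
          (Fin.cons v g) (by
          intro i
          refine Fin.cases ?_ ?_ i
          · simpa using hvX
          · intro i; simpa using (Finset.mem_filter.mp (hg i)).1)
        refine ⟨u, ?_, hfu, fun i => ?_⟩
        · rw [Finset.mem_filter]
          exact ⟨hu, by simpa using hgu 0⟩
        · simpa using hgu i.succ)
      have h4 : (1 - θ)⁻¹ * min (θ⁻¹ ^ a) ((1 - θ)⁻¹ ^ b') ≤ X.card := by
        have : min (θ⁻¹ ^ a) ((1 - θ)⁻¹ ^ b') ≤ (1 - θ) * X.card := le_trans hih hv
        have h5 : (1 - θ) ≠ 0 := by linarith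
        calc (1 - θ)⁻¹ * min (θ⁻¹ ^ a) ((1 - θ)⁻¹ ^ b') ≤ (1 - θ)⁻¹ * ((1 - θ) * X.card) :=
              mul_le_mul_of_nonneg_left this hpos2.le
          _ = X.card := by field_simp
      refine le_trans ?_ h4
      rcases min_cases (θ⁻¹ ^ a) ((1 - θ)⁻¹ ^ b') with hm | hm
      · rw [hm.1]
        refine le_trans (min_le_left _ _) ?_
        have : 0 ≤ θ⁻¹ ^ a := by positivity
        nlinarith
      · rw [hm.1]
        refine le_trans (min_le_right _ _) ?_
        rw [pow_succ, mul_comm]

/-- A finite digraph with no closed walk of length at most `2 * j + 1` in which every `k`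
vertices have a common out-neighbour has at least `(√k) ^ (k ^ j / 2)` vertices. -/
theorem sqrt_pow_le_card {N : V → V → Prop} [Fintype V] [Nonempty V] {k j : ℕ}
    (hj : 1 ≤ j) (hk : 2 ≤ k) (hs : NoShort N (2 * j + 1)) (h : Common N k) :
    (Real.sqrt k) ^ (k ^ j / 2) ≤ (Fintype.card V : ℝ) := by
  set c := k ^ j / 2 with hc
  have hkj : 2 ≤ k ^ j := le_trans hk (Nat.le_self_pow (by omega) k)
  have hc1 : 1 ≤ c := by omega
  have hkr : (2 : ℝ) ≤ k := by exact_mod_cast hk
  have hsq : (1 : ℝ) < Real.sqrt k := by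
    rw [show (1 : ℝ) = Real.sqrt 1 by simp]
    exact Real.sqrt_lt_sqrt (by norm_num) (by linarith)
  have hsq0 : (0 : ℝ) < Real.sqrt k := by linarith
  have key := min_bound_aux (P := pw N j) (M := pw N (j + 1)) (by
    intro a b hab hba
    exact hs (j + (j + 1)) (by omega) (by omega) b (pw_add hba hab))
    (Real.sqrt k)⁻¹ (inv_pos.mpr hsq0) (inv_lt_one_of_one_lt₀ hsq) (c + c * k) c (c * k) rfl
    Finset.univ Finset.univ_nonempty (by
      intro f _ g _
      obtain ⟨u, hu1, hu2⟩ := joint_common (j := j) (a := c) (c := c) h (by omega) hc1 f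
        (fun p => g (finProdFinEquiv p))
      refine ⟨u, Finset.mem_univ _, hu1, fun i => ?_⟩
      have := hu2 (finProdFinEquiv.symm i)
      simp only [Equiv.apply_symm_apply] at this
      exact this)
  rw [inv_inv, Finset.card_univ] at key
  refine le_trans (le_min le_rfl ?_) key
  -- `(√k)^c ≤ ((1 - 1/√k)⁻¹)^(c k)`
  rw [mul_comm c k, pow_mul]
  refine pow_le_pow_left₀ hsq0.le ?_ c
  have hlt : (Real.sqrt k)⁻¹ < 1 := inv_lt_one_of_one_lt₀ hsq
  have h1 : Real.exp (Real.sqrt k)⁻¹ ≤ (1 - (Real.sqrt k)⁻¹)⁻¹ := by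
    have h2 : 1 - (Real.sqrt k)⁻¹ ≤ Real.exp (-(Real.sqrt k)⁻¹) := by
      have := Real.add_one_le_exp (-(Real.sqrt k)⁻¹)
      linarith
    have h3 : 0 < 1 - (Real.sqrt k)⁻¹ := by linarith
    rw [← neg_neg (Real.sqrt k)⁻¹, Real.exp_neg, neg_neg]
    exact inv_anti₀ h3 h2
  calc Real.sqrt k ≤ Real.exp (Real.sqrt k) := by
        have := Real.add_one_le_exp (Real.sqrt k)
        linarith
    _ = (Real.exp (Real.sqrt k)⁻¹) ^ k := by
        rw [← Real.exp_nat_mul]
        congr 1
        have h4 : Real.sqrt k * Real.sqrt k = (k : ℝ) := Real.mul_self_sqrt (by positivity)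
        rw [eq_mul_inv_iff_mul_eq₀ hsq0.ne', h4]
    _ ≤ _ := pow_le_pow_left₀ (Real.exp_pos _).le h1 k

end Pool.Agent.Helper39
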