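import Pool.Agent.Helper39.Construct

set_option autoImplicit false

/-!
Choice of the parameters in the construction.
-/

namespace Pool.Agent.Helper39

open Finset

theorem exp_ge_two_pow (N : ℕ) : (2 : ℝ) ^ N ≤ Real.exp (N : ℝ) := by
  have h : (2 : ℝ) ≤ Real.exp 1 := by
    have := Real.add_one_le_exp (1 : ℝ)
    linarith
  calc (2 : ℝ) ^ N ≤ (Real.exp 1) ^ N := pow_le_pow_left₀ (by norm_num) h N
    _ = Real.exp (N : ℝ) := by rw [← Real.exp_nat_mul, mul_one]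

theorem exp_gt_two_pow {N : ℕ} (hN : 1 ≤ N) : (2 : ℝ) ^ N < Real.exp (N : ℝ) := by
  have h : (2 : ℝ) < Real.exp 1 := by
    have := Real.add_one_lt_exp (one_ne_zero (α := ℝ))
    linarith
  calc (2 : ℝ) ^ N < (Real.exp 1) ^ N := pow_lt_pow_left₀ h (by norm_num) (by omega)
    _ = Real.exp (N : ℝ) := by rw [← Real.exp_nat_mul, mul_one]

theorem pow_le_two_pow (k G : ℕ) : k ^ G ≤ 2 ^ (G * k) := by
  rw [mul_comm, pow_mul]
  exact Nat.pow_le_pow_left (Nat.lt_two_pow_self).le G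

/-- The exponent in the size bound. -/
def CG (G : ℕ) : ℕ := (6 * G + 6) * G + (6 * G + 10)

theorem param1 {G k : ℕ} (hG : 1 ≤ G) (hk : 1 ≤ k) :
    1 + ((2 * G * k) + (4 * G + 6) * k) * k ^ G ≤ 2 ^ ((6 * G + 9) * k ^ G) := by
  set t := k ^ G with ht
  have hkt : k ≤ t := Nat.le_self_pow (by omega) k
  have ht1 : 1 ≤ t := le_trans hk hkt
  have h1 : 1 + ((2 * G * k) + (4 * G + 6) * k) * t ≤ (6 * G + 7) * (t * t) := by
    have : ((2 * G * k) + (4 * G + 6) * k) * t = (6 * G + 6) * (k * t) := by ring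
    rw [this]
    have h2 : k * t ≤ t * t := Nat.mul_le_mul_right t hkt
    have h3 : 1 ≤ t * t := Nat.mul_pos ht1 ht1
    nlinarith
  have h2 : t * t ≤ 2 ^ (2 * t) := by
    have := pow_le_two_pow t 2
    rwa [pow_two] at this
  have h3 : 6 * G + 7 ≤ 2 ^ ((6 * G + 7) * t) := by
    calc 6 * G + 7 ≤ 2 ^ (6 * G + 7) := (Nat.lt_two_pow_self).le
      _ ≤ 2 ^ ((6 * G + 7) * t) := Nat.pow_le_pow_right (by norm_num)
          (Nat.le_mul_of_pos_right _ ht1)
  calc _ ≤ (6 * G + 7) * (t * t) := h1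
    _ ≤ 2 ^ ((6 * G + 7) * t) * 2 ^ (2 * t) := Nat.mul_le_mul h3 h2
    _ = 2 ^ ((6 * G + 9) * t) := by rw [← pow_add]; congr 1; ring

theorem param2 {G k : ℕ} (hk : 1 ≤ k) :
    1 + (((6 * G + 10) * k ^ G) * k + 2 * G * k) ≤ 2 ^ ((4 * G + 5) * k) := by
  have h0 : 1 ≤ k ^ G := Nat.one_le_pow _ _ hk
  have h1 : 1 + (((6 * G + 10) * k ^ G) * k + 2 * G * k) ≤ (8 * G + 11) * k ^ (G + 1) := by
    rw [pow_succ]
    have h2 : k ≤ k ^ G * k := Nat.le_mul_of_pos_left k h0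
    have h3 : 1 ≤ k ^ G * k := le_trans hk h2
    nlinarith
  have h2 : 8 * G + 11 ≤ 2 ^ ((3 * G + 4) * k) := by
    have h3 : 8 * G + 11 ≤ 2 ^ (3 * G + 4) := by
      have : 3 * G < 2 ^ (3 * G) := Nat.lt_two_pow_self
      rw [pow_add]
      omega
    exact le_trans h3 (Nat.pow_le_pow_right (by norm_num) (Nat.le_mul_of_pos_right _ hk))
  calc _ ≤ (8 * G + 11) * k ^ (G + 1) := h1
    _ ≤ 2 ^ ((3 * G + 4) * k) * 2 ^ ((G + 1) * k) := Nat.mul_le_mul h2 (pow_le_two_pow k (G + 1))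
    _ = 2 ^ ((4 * G + 5) * k) := by rw [← pow_add]; congr 1; ring

theorem exists_digraph (G k : ℕ) (hG : 1 ≤ G) (hk : 1 ≤ k) :
    ∃ (V : Type) (_ : Fintype V) (_ : Nonempty V) (N : V → V → Prop),
      NoShort N (G + 1) ∧ Common N k ∧ Fintype.card V ≤ 2 ^ (CG G * k ^ G) := by
  set K := 2 ^ (2 * G * k) with hK
  set b := 2 ^ ((4 * G + 6) * k) with hb
  set M := 2 ^ ((6 * G + 10) * k ^ G) with hM
  have h1 : (2 : ℝ) * ((K : ℝ) * b) ^ (k ^ G) < Real.exp ((M : ℝ) / 2 ^ (k ^ G)) := by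
    have e1 : (M : ℝ) / 2 ^ (k ^ G) = ((2 ^ ((6 * G + 9) * k ^ G) : ℕ) : ℝ) := by
      rw [div_eq_iff (by positivity), hM]
      push_cast
      rw [← pow_add]
      congr 1
      ring
    rw [e1]
    refine lt_of_le_of_lt ?_ (exp_gt_two_pow (Nat.one_le_two_pow))
    have e2 : (2 : ℝ) * ((K : ℝ) * b) ^ (k ^ G) =
        2 ^ (1 + ((2 * G * k) + (4 * G + 6) * k) * k ^ G) := by
      rw [hK, hb]
      push_cast
      rw [← pow_add, ← pow_mul, ← pow_succ']
      congr 1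
      ring
    rw [e2]
    exact pow_le_pow_right₀ (by norm_num) (param1 hG hk)
  have h2 : (2 : ℝ) * ((M : ℝ) ^ k * K) ≤ Real.exp ((b : ℝ) / 2 ^ k) := by
    have e1 : (b : ℝ) / 2 ^ k = ((2 ^ ((4 * G + 5) * k) : ℕ) : ℝ) := by
      rw [div_eq_iff (by positivity), hb]
      push_cast
      rw [← pow_add]
      congr 1
      ring
    rw [e1]
    refine le_trans ?_ (exp_ge_two_pow _)
    have e2 : (2 : ℝ) * ((M : ℝ) ^ k * K) =
        2 ^ (1 + (((6 * G + 10) * k ^ G) * k + 2 * G * k)) := by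
      rw [hK, hM]
      push_cast
      rw [← pow_mul, ← pow_add, ← pow_succ']
      congr 1
      ring
    rw [e2]
    exact pow_le_pow_right₀ (by norm_num) (param2 hk)
  obtain ⟨H, hH1, hH2⟩ := exists_colouring k (k ^ G) K b M h1 h2
  have hKb : G * k ^ G < K := by
    have e1 : G < 2 ^ G := Nat.lt_two_pow_self
    have e2 : k ^ G ≤ 2 ^ (G * k) := pow_le_two_pow k G
    have e3 : G ≤ G * k := Nat.le_mul_of_pos_right _ hk
    have e4 : 1 ≤ k ^ G := Nat.one_le_pow _ _ hk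
    calc G * k ^ G < 2 ^ G * k ^ G := Nat.mul_lt_mul_of_pos_right e1 e4
      _ ≤ 2 ^ (G * k) * 2 ^ (G * k) := Nat.mul_le_mul (Nat.pow_le_pow_right (by norm_num) e3) e2
      _ = K := by rw [hK, ← pow_add]; congr 1; ring
  have hKpos : 0 < K := Nat.pos_of_ne_zero (by rw [hK]; positivity)
  have hbpos : 0 < b := Nat.pos_of_ne_zero (by rw [hb]; positivity)
  have hMpos : 0 < M := Nat.pos_of_ne_zero (by rw [hM]; positivity)
  refine ⟨HVert (Fin K × Fin b) G k M, inferInstance, ?_, HN (by omega) H, HN_noShort _ H,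
    HN_common _ hk hKb H hH1 hH2, ?_⟩
  · have : Nonempty (Fin K × Fin b) := ⟨(⟨0, hKpos⟩, ⟨0, hbpos⟩)⟩
    have : Nonempty (Fin M) := ⟨⟨0, hMpos⟩⟩
    infer_instance
  · rw [Fintype.card_prod, Fintype.card_fun, Fintype.card_prod, Fintype.card_fin,
      Fintype.card_fin, Fintype.card_fin]
    have e1 : K * b = 2 ^ ((6 * G + 6) * k) := by
      rw [hK, hb, ← pow_add]
      congr 1
      ring
    rw [e1, ← pow_mul, hM, ← pow_add]
    apply Nat.pow_le_pow_right (by norm_num)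
    have e2 := card_sigma_le G k hk
    unfold CG
    calc (6 * G + 6) * k * Fintype.card (Σ a : Fin G, (Fin a → Fin k)) + (6 * G + 10) * k ^ G
        = (6 * G + 6) * (k * Fintype.card (Σ a : Fin G, (Fin a → Fin k)))
          + (6 * G + 10) * k ^ G := by ring
      _ ≤ (6 * G + 6) * (G * k ^ G) + (6 * G + 10) * k ^ G := by
          gcongr
      _ = _ := by ring

end Pool.Agent.Helper39
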