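import Pool.Agent.Helper39.PDom
import Pool.Agent.Helper39.Params

set_option autoImplicit false

/-!
Lower bounds for the upper directed p-domination number.
-/

namespace Pool.Agent.Helper39

open Finset Filter

theorem pw_map {V W : Type*} {N : V → V → Prop} {N' : W → W → Prop} (e : V → W)
    (he : ∀ a b, N a b → N' (e a) (e b)) (m : ℕ) (a b : V) (h : pw N m a b) :
    pw N' m (e a) (e b) := by
  induction m generalizing b with
  | zero => have : a = b := h; subst this; rfl
  | succ m ih =>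
    obtain ⟨c, hc, h⟩ := h
    exact ⟨e c, ih c hc, he _ _ h⟩

theorem noShort_comap {V W : Type*} {N' : W → W → Prop} (e : V → W) {g : ℕ}
    (h : NoShort N' g) : NoShort (fun a b => N' (e a) (e b)) g := by
  intro m hm1 hm a ha
  exact h m hm1 hm (e a) (pw_map e (fun _ _ h => h) m a a ha)

theorem crit_transfer {n p r g : ℕ} (hc : Crit p r g) {N : Fin n → Fin n → Prop}
    (hN : NoShort N g) (E : Finset (Fin n)) (hE : E.card = r) :
    ∃ P ⊆ E, P.card = p ∧ ∀ u ∈ E, u ∉ P → ∃ s ∈ P, ¬ N s u := by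
  classical
  let e := (E.orderEmbOfFin hE).toEmbedding
  obtain ⟨P, hP, hPu⟩ := hc (fun a b => N (e a) (e b)) (noShort_comap e hN)
  refine ⟨P.map e, ?_, by rw [Finset.card_map]; exact hP, ?_⟩
  · intro x hx
    rw [Finset.mem_map] at hx
    obtain ⟨i, -, rfl⟩ := hx
    exact E.orderEmbOfFin_mem hE i
  · intro u hu huP
    have hr : u ∈ Set.range (E.orderEmbOfFin hE) := by
      rw [Finset.range_orderEmbOfFin]
      exact hu
    obtain ⟨j, hj⟩ := hr
    have hjP : j ∉ P := by
      intro h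
      apply huP
      rw [Finset.mem_map]
      exact ⟨j, h, hj⟩
    obtain ⟨s, hs, hsj⟩ := hPu j hjP
    refine ⟨e s, Finset.mem_map_of_mem e hs, ?_⟩
    rw [← hj]
    exact hsj

theorem exists_orientation {n r p : ℕ} (hn : 0 < n)
    (Q : Finset (Fin n) → Finset (Fin n) → Prop)
    (h : ∀ E : Finset (Fin n), E.card = r → ∃ P ⊆ E, P.card = p ∧ Q E P) :
    ∃ D : Orientation n r, ∀ E : Finset (Fin n), E.card = r → ∃ P ⊆ E, P.card = p ∧ Q E P ∧
      ∀ x ∈ P, ∃ i : Fin r, (i : ℕ) < p ∧ D.ord E i = x := by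
  classical
  choose! P hPE hPc hPQ using h
  have hlen : ∀ E : Finset (Fin n), E.card = r →
      ((P E).toList ++ (E \ P E).toList).length = r := by
    intro E hE
    rw [List.length_append, Finset.length_toList, Finset.length_toList,
      Finset.card_sdiff_of_subset (hPE E hE), hE]
    have := Finset.card_le_card (hPE E hE)
    omega
  have hnd : ∀ E : Finset (Fin n), E.card = r →
      ((P E).toList ++ (E \ P E).toList).Nodup := by
    intro E hE
    rw [List.nodup_append]
    refine ⟨Finset.nodup_toList _, Finset.nodup_toList _, ?_⟩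
    intro a ha b hb hab
    rw [Finset.mem_toList] at ha hb
    subst hab
    exact (Finset.mem_sdiff.mp hb).2 ha
  let D : Orientation n r :=
    { ord := fun E i => if hE : E.card = r then
        ((P E).toList ++ (E \ P E).toList).get ⟨i.1, by rw [hlen E hE]; exact i.2⟩ else ⟨0, hn⟩
      inj := by
        intro E hE i j hij
        simp only [hE, dif_pos] at hij
        have := (List.nodup_iff_injective_get.mp (hnd E hE)) hij
        simpa [Fin.ext_iff] using this
      mem := by
        intro E hE i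
        simp only [hE, dif_pos]
        have hmem := List.get_mem ((P E).toList ++ (E \ P E).toList)
          ⟨i.1, by rw [hlen E hE]; exact i.2⟩
        rw [List.mem_append, Finset.mem_toList, Finset.mem_toList] at hmem
        rcases hmem with hm | hm
        · exact hPE E hE hm
        · exact (Finset.mem_sdiff.mp hm).1 }
  refine ⟨D, fun E hE => ⟨P E, hPE E hE, hPc E hE, hPQ E hE, ?_⟩⟩
  intro x hx
  rw [← Finset.mem_toList] at hx
  obtain ⟨i, hi, hix⟩ := List.getElem_of_mem hx
  have hi' : i < p := by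
    rw [Finset.length_toList, hPc E hE] at hi
    exact hi
  have hpr : p ≤ r := by
    have := Finset.card_le_card (hPE E hE)
    rw [hPc E hE, hE] at this
    exact this
  refine ⟨⟨i, by omega⟩, hi', ?_⟩
  change (if hE : E.card = r then _ else _) = x
  rw [dif_pos hE, List.get_eq_getElem]
  simp only
  rw [List.getElem_append_left hi]
  exact hix

/-- The main lower bound, in finite form. -/
theorem lower_finite {p r G k n : ℕ} (hG : 1 ≤ G) (hk : 1 ≤ k)
    (hc : Crit p r (G + 1)) (hn : 2 ^ (CG G * k ^ G) ≤ n) : k + 1 ≤ GammaUp p n r := by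
  classical
  obtain ⟨V, hV, hVne, N0, hs0, hc0, hcard⟩ := exists_digraph G k hG hk
  have hcard' : Fintype.card V ≤ Fintype.card (Fin n) := by
    rw [Fintype.card_fin]
    exact le_trans hcard hn
  obtain ⟨emb⟩ := Function.Embedding.nonempty_of_card_le hcard'
  obtain ⟨π, hπ⟩ : ∃ π : Fin n → V, Function.Surjective π :=
    ⟨Function.invFun emb, Function.invFun_surjective emb.injective⟩
  set N : Fin n → Fin n → Prop := fun a b => N0 (π a) (π b) with hNdef
  have hNs : NoShort N (G + 1) := noShort_comap π hs0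
  have hNc : Common N k := by
    intro f
    obtain ⟨u, hu⟩ := hc0 (fun i => π (f i))
    obtain ⟨u', rfl⟩ := hπ u
    exact ⟨u', hu⟩
  have hnpos : 0 < n := lt_of_lt_of_le (by positivity) hn
  obtain ⟨D, hD⟩ := exists_orientation (p := p) (r := r) hnpos
    (fun E P => ∀ u ∈ E, u ∉ P → ∃ s ∈ P, ¬ N s u)
    (fun E hE => crit_transfer hc hNs E hE)
  apply le_GammaUp_of D
  intro S hS
  by_contra hcon
  push Not at hcon
  have hSk : S.card ≤ k := by omega
  have hu : ∃ u, ∀ s ∈ S, N s u := by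
    rcases S.eq_empty_or_nonempty with h | h
    · subst h
      exact ⟨⟨0, hnpos⟩, by simp⟩
    · exact common_finset hNc S hSk h
  obtain ⟨u, hu⟩ := hu
  have huS : u ∉ S := by
    intro h
    exact hNs 1 le_rfl (by omega) u (pw_one.mpr (hu u h))
  obtain ⟨E, hE, huE, hfirst⟩ := hS u huS
  obtain ⟨P, hPE, hPc, hPu, hPord⟩ := hD E hE
  have hPS : P ⊆ S := by
    intro x hx
    obtain ⟨i, hi, hix⟩ := hPord x hx
    rw [← hix]
    exact hfirst i hi
  obtain ⟨s, hs, hsu⟩ := hPu u huE (fun h => huS (hPS h))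
  exact hsu (hu s (hPS hs))

/-- The main lower bound, in asymptotic form. -/
theorem lower_asymptotic {p r G : ℕ} (hG : 1 ≤ G) (hc : Crit p r (G + 1)) :
    ∃ c : ℝ, 0 < c ∧ ∀ᶠ n : ℕ in atTop,
      c * (Real.log n) ^ ((1 : ℝ) / (G : ℝ)) ≤ (GammaUp p n r : ℝ) := by
  have hCG : (0 : ℝ) < CG G := by
    have : 0 < CG G := by unfold CG; positivity
    exact_mod_cast this
  have hl2 : 0 < Real.log 2 := Real.log_pos (by norm_num)
  have hG0 : (G : ℝ) ≠ 0 := by
    have : G ≠ 0 := by omega
    exact_mod_cast this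
  refine ⟨((CG G * Real.log 2)⁻¹) ^ ((1 : ℝ) / (G : ℝ)), by positivity, ?_⟩
  filter_upwards [eventually_ge_atTop (2 ^ (CG G))] with n hn
  have hn1 : (1 : ℝ) ≤ n := by
    have : 1 ≤ n := le_trans Nat.one_le_two_pow hn
    exact_mod_cast this
  have hlog : 0 ≤ Real.log n := Real.log_nonneg hn1
  rw [← Real.mul_rpow (by positivity) hlog]
  set x := ((CG G * Real.log 2)⁻¹ * Real.log n) with hx
  have hx0 : 0 ≤ x := by positivity
  have hx1 : 1 ≤ x := by
    rw [hx, ← div_eq_inv_mul, one_le_div (by positivity)]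
    have : Real.log ((2 : ℝ) ^ (CG G)) ≤ Real.log n := by
      apply Real.log_le_log (by positivity)
      exact_mod_cast hn
    rwa [Real.log_pow] at this
  set y := x ^ ((1 : ℝ) / (G : ℝ)) with hy
  have hy1 : 1 ≤ y := Real.one_le_rpow hx1 (by positivity)
  have hyG : y ^ G = x := by
    rw [hy, ← Real.rpow_natCast, ← Real.rpow_mul hx0, one_div, inv_mul_cancel₀ hG0, Real.rpow_one]
  have hk1 : 1 ≤ ⌊y⌋₊ := by
    rw [Nat.one_le_floor_iff]
    exact hy1
  have hfl : (⌊y⌋₊ : ℝ) ≤ y := Nat.floor_le (by linarith)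
  have hpow : 2 ^ (CG G * ⌊y⌋₊ ^ G) ≤ n := by
    have h1 : ((⌊y⌋₊ : ℝ)) ^ G ≤ x := by
      rw [← hyG]
      exact pow_le_pow_left₀ (by positivity) hfl G
    have h2 : (CG G : ℝ) * (⌊y⌋₊ : ℝ) ^ G * Real.log 2 ≤ Real.log n := by
      have h3 : (CG G : ℝ) * Real.log 2 * x = Real.log n := by
        rw [hx]; field_simp
      calc (CG G : ℝ) * (⌊y⌋₊ : ℝ) ^ G * Real.log 2
          = (CG G : ℝ) * Real.log 2 * (⌊y⌋₊ : ℝ) ^ G := by ring
        _ ≤ (CG G : ℝ) * Real.log 2 * x := mul_le_mul_of_nonneg_left h1 (by positivity)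
        _ = _ := h3
    have h3 : Real.log ((2 : ℝ) ^ (CG G * ⌊y⌋₊ ^ G)) ≤ Real.log n := by
      rw [Real.log_pow]
      push_cast
      exact h2
    have h4 : (2 : ℝ) ^ (CG G * ⌊y⌋₊ ^ G) ≤ n :=
      (Real.log_le_log_iff (by positivity) (by linarith)).mp h3
    exact_mod_cast h4
  have hfin := lower_finite hG hk1 hc hpow
  have h1 : ((⌊y⌋₊ + 1 : ℕ) : ℝ) ≤ (GammaUp p n r : ℝ) := by exact_mod_cast hfin
  push_cast at h1
  have h2 : y < ⌊y⌋₊ + 1 := Nat.lt_floor_add_one y
  linarith

end Pool.Agent.Helper39
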