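import Pool.Agent.Helper39.PDom
import Pool.Agent.Helper39.Digraph

set_option autoImplicit false

/-!
Upper bounds for the upper directed 1-domination number.
-/

namespace Pool.Agent.Helper39

section closed

variable {V : Type*}

/-- `W` is closed under out-neighbours. -/
def OutClosed (N : V → V → Prop) (W : Finset V) : Prop := ∀ s ∈ W, ∀ u, N s u → u ∈ W

theorem outClosed_pw {N : V → V → Prop} {W : Finset V} (hW : OutClosed N W) {m : ℕ} {a b : V}
    (ha : a ∈ W) (h : pw N m a b) : b ∈ W := by
  induction m generalizing b with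
  | zero => have : a = b := h; subst this; exact ha
  | succ m ih =>
    obtain ⟨c, hc, h⟩ := h
    exact hW c (ih hc) b h

theorem walk_set [DecidableEq V] {N : V → V → Prop} {m : ℕ} {a b : V} (h : pw N m a b) :
    ∃ C : Finset V, C.card ≤ m ∧ a ∈ insert b C ∧ (∀ v ∈ C, ∃ w ∈ insert b C, N v w) ∧
      ∀ W : Finset V, OutClosed N W → a ∈ W → C ⊆ W := by
  induction m generalizing b with
  | zero =>
    have : a = b := h
    subst this
    exact ⟨∅, by simp, by simp, by simp, by simp⟩
  | succ m ih =>
    obtain ⟨c, hc, h⟩ := h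
    obtain ⟨C, hC, haC, hout, hcl⟩ := ih hc
    refine ⟨insert c C, ?_, ?_, ?_, ?_⟩
    · have := Finset.card_insert_le c C
      omega
    · exact Finset.mem_insert_of_mem haC
    · intro v hv
      rw [Finset.mem_insert] at hv
      rcases hv with rfl | hv
      · exact ⟨b, Finset.mem_insert_self _ _, h⟩
      · obtain ⟨w, hw, hvw⟩ := hout v hv
        exact ⟨w, Finset.mem_insert_of_mem hw, hvw⟩
    · intro W hW haW
      rw [Finset.insert_subset_iff]
      exact ⟨outClosed_pw hW haW hc, hcl W hW haW⟩

/-- In a minimal out-closed set, a nonempty set all of whose members have an out-neighbour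
inside it can be extended one vertex at a time. -/
theorem extend_alive [DecidableEq V] {N : V → V → Prop} {W : Finset V} (hW : OutClosed N W)
    (hmin : ∀ W' : Finset V, W'.Nonempty → OutClosed N W' → W.card ≤ W'.card)
    (t : ℕ) : ∀ C : Finset V, C.Nonempty → C ⊆ W → (∀ v ∈ C, ∃ w ∈ C, N v w) →
      C.card + t ≤ W.card →
      ∃ C' : Finset V, C'.card = C.card + t ∧ (∀ v ∈ C', ∃ w ∈ C', N v w) := by
  induction t with
  | zero => intro C _ _ hal _; exact ⟨C, rfl, hal⟩
  | succ t ih =>
    intro C hne hCW hal hle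
    have hne2 : (W \ C).Nonempty := by
      rw [← Finset.card_pos, Finset.card_sdiff_of_subset hCW]
      omega
    have hnot : ¬ OutClosed N (W \ C) := by
      intro hcl
      have := hmin _ hne2 hcl
      rw [Finset.card_sdiff_of_subset hCW] at this
      have := Finset.card_pos.mpr hne
      omega
    unfold OutClosed at hnot
    push Not at hnot
    obtain ⟨x, hx, u, hxu, hu⟩ := hnot
    rw [Finset.mem_sdiff] at hx hu
    have huW : u ∈ W := hW x hx.1 u hxu
    have huC : u ∈ C := by
      by_contra h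
      exact hu ⟨huW, h⟩
    have hcard : (insert x C).card = C.card + 1 := Finset.card_insert_of_notMem hx.2
    obtain ⟨C', hC', hal'⟩ := ih (insert x C) (Finset.insert_nonempty _ _)
      (Finset.insert_subset_iff.mpr ⟨hx.1, hCW⟩) (by
        intro v hv
        rw [Finset.mem_insert] at hv
        rcases hv with rfl | hv
        · exact ⟨u, Finset.mem_insert_of_mem huC, hxu⟩
        · obtain ⟨w, hw, hvw⟩ := hal v hv
          exact ⟨w, Finset.mem_insert_of_mem hw, hvw⟩) (by omega)
    exact ⟨C', by omega, hal'⟩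

/-- If every `r`-set has a member without out-neighbours in the set and every `k ≥ r` vertices
have a common out-neighbour, then a subset of the vertices has no closed walks of length at
most `r` and still has the common out-neighbour property. -/
theorem extract [Fintype V] [Nonempty V] {N : V → V → Prop} {k r : ℕ} (hr : 1 ≤ r) (hk : r ≤ k)
    (hirr : ∀ a, ¬ N a a) (hN : Common N k)
    (hsink : ∀ E : Finset V, E.card = r → ∃ f ∈ E, ∀ u ∈ E, ¬ N f u) :
    ∃ W : Finset V, W.Nonempty ∧ NoShort (fun a b : W => N a.1 b.1) r ∧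
      Common (fun a b : W => N a.1 b.1) k := by
  classical
  -- a minimal nonempty out-closed set
  have hex : ∃ m, ∃ W : Finset V, W.Nonempty ∧ OutClosed N W ∧ W.card = m :=
    ⟨_, Finset.univ, Finset.univ_nonempty, fun _ _ u _ => Finset.mem_univ u, rfl⟩
  obtain ⟨W, hWne, hW, hWc⟩ := Nat.find_spec hex
  have hmin : ∀ W' : Finset V, W'.Nonempty → OutClosed N W' → W.card ≤ W'.card := by
    intro W' h1 h2
    rw [hWc]
    exact Nat.find_min' hex ⟨W', h1, h2, rfl⟩
  -- it has more than `k` vertices
  have hWk : k < W.card := by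
    by_contra hcon
    push Not at hcon
    obtain ⟨u, hu⟩ := common_finset hN W hcon hWne
    obtain ⟨s, hs⟩ := hWne
    exact hirr u (hu u (hW s hs u (hu s hs)))
  have hcontra : ∀ C : Finset V, C.Nonempty → C ⊆ W → C.card ≤ r →
      (∀ v ∈ C, ∃ w ∈ C, N v w) → False := by
    intro C hne hCW hCr hal
    obtain ⟨C', hC', hal'⟩ := extend_alive hW hmin (r - C.card) C hne hCW hal (by omega)
    obtain ⟨f, hf, hfu⟩ := hsink C' (by omega)
    obtain ⟨w, hw, hfw⟩ := hal' f hf
    exact hfu w hw hfw
  refine ⟨W, hWne, ?_, ?_⟩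
  · intro m hm1 hmr a ha
    have hpw : pw N m a.1 a.1 := by
      have aux : ∀ m : ℕ, ∀ b : W, pw (fun a b : W => N a.1 b.1) m a b → pw N m a.1 b.1 := by
        intro m
        induction m with
        | zero => intro b hb; have : a = b := hb; subst this; rfl
        | succ m ih =>
          rintro b ⟨c, hc, h⟩
          exact ⟨c.1, ih c hc, h⟩
      exact aux m a ha
    obtain ⟨n, rfl⟩ : ∃ n, m = n + 1 := ⟨m - 1, by omega⟩
    obtain ⟨c, hc, hca⟩ := hpw
    obtain ⟨C, hCc, haC, hout, hcl⟩ := walk_set hc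
    have hacl := hcl W hW a.2
    have hcW : c ∈ W := outClosed_pw hW a.2 hc
    refine hcontra (insert c C) (Finset.insert_nonempty _ _)
      (Finset.insert_subset_iff.mpr ⟨hcW, hacl⟩) ?_ ?_
    · have := Finset.card_insert_le c C
      omega
    · intro v hv
      rw [Finset.mem_insert] at hv
      rcases hv with rfl | hv
      · exact ⟨a.1, haC, hca⟩
      · obtain ⟨w, hw, hvw⟩ := hout v hv
        exact ⟨w, hw, hvw⟩
  · intro f
    obtain ⟨u, hu⟩ := hN (fun i => (f i).1)
    have hu' : u ∈ W := hW (f ⟨0, by omega⟩).1 (f ⟨0, by omega⟩).2 u (hu ⟨0, by omega⟩)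
    exact ⟨⟨u, hu'⟩, hu⟩

end closed

/-- The escape relation of an orientation (for `p = 1`). -/
def Escape {n r : ℕ} (D : Orientation n r) (hr : 0 < r) (s u : Fin n) : Prop :=
  s ≠ u ∧ ∀ E : Finset (Fin n), E.card = r → u ∈ E → D.ord E ⟨0, hr⟩ ≠ s

theorem escape_common {n r k : ℕ} (D : Orientation n r) (hr : 0 < r)
    (hk : k < gammaD 1 D) : Common (Escape D hr) k := by
  classical
  intro f
  have hcard : (Finset.univ.image f).card ≤ k := by
    have := Finset.card_image_le (s := Finset.univ) (f := f)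
    simpa using this
  have hnot : ¬ IsPDominating D 1 (Finset.univ.image f) := by
    intro h
    have := gammaD_le D _ h
    omega
  unfold IsPDominating at hnot
  push Not at hnot
  obtain ⟨u, hu, hE⟩ := hnot
  refine ⟨u, fun i => ⟨?_, ?_⟩⟩
  · rintro rfl
    exact hu (Finset.mem_image_of_mem f (Finset.mem_univ i))
  · intro E hEr huE heq
    obtain ⟨i', hi', hnotin⟩ := hE E hEr huE
    have h0 : i' = ⟨0, hr⟩ := by
      apply Fin.ext
      simp only
      omega
    rw [h0, heq] at hnotin
    exact hnotin (Finset.mem_image_of_mem f (Finset.mem_univ i))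

theorem escape_sink {n r : ℕ} (D : Orientation n r) (hr : 0 < r) (E : Finset (Fin n))
    (hE : E.card = r) : ∃ f ∈ E, ∀ u ∈ E, ¬ Escape D hr f u :=
  ⟨D.ord E ⟨0, hr⟩, D.mem E hE _, fun u hu h => h.2 E hE hu rfl⟩

/-- Even case. -/
theorem pow_two_bound {n r j k : ℕ} (hj : 1 ≤ j) (hjr : 2 * j ≤ r) (hk : r ≤ k)
    (D : Orientation n r) (hD : k < gammaD 1 D) : 2 ^ (k ^ j) ≤ n := by
  have hn : 0 < n := by
    have := gammaD_le_n (p := 1) D
    omega
  have : Nonempty (Fin n) := ⟨⟨0, hn⟩⟩
  obtain ⟨W, hWne, hs, hc⟩ := extract (N := Escape D (by omega)) (by omega) hk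
    (fun a h => h.1 rfl) (escape_common D (by omega) hD) (escape_sink D (by omega))
  have : Nonempty W := hWne.to_subtype
  have h1 := two_pow_pow_le_card (V := W) hj (fun m hm1 hm2 => hs m hm1 (by omega)) hc
  have h2 : Fintype.card W ≤ n := by
    rw [Fintype.card_coe]
    have := Finset.card_le_univ W
    simpa using this
  rw [pow_succ] at h1
  have h3 : 1 ≤ 2 ^ (k ^ j) := Nat.one_le_two_pow
  omega

/-- Odd case. -/
theorem sqrt_pow_bound {n r j k : ℕ} (hj : 1 ≤ j) (hjr : 2 * j + 1 ≤ r) (hk : r ≤ k)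
    (D : Orientation n r) (hD : k < gammaD 1 D) : (Real.sqrt k) ^ (k ^ j / 2) ≤ (n : ℝ) := by
  have hn : 0 < n := by
    have := gammaD_le_n (p := 1) D
    omega
  have : Nonempty (Fin n) := ⟨⟨0, hn⟩⟩
  obtain ⟨W, hWne, hs, hc⟩ := extract (N := Escape D (by omega)) (by omega) hk
    (fun a h => h.1 rfl) (escape_common D (by omega) hD) (escape_sink D (by omega))
  have : Nonempty W := hWne.to_subtype
  have h1 := sqrt_pow_le_card (V := W) hj (by omega) (fun m hm1 hm2 => hs m hm1 (by omega)) hc
  refine le_trans h1 ?_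
  have h2 : Fintype.card W ≤ n := by
    rw [Fintype.card_coe]
    have := Finset.card_le_univ W
    simpa using this
  exact_mod_cast h2

end Pool.Agent.Helper39
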