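import Pool.Agent.Helper39.Upper

set_option autoImplicit false

/-!
Asymptotic form of the upper bounds for `p = 1`.
-/

namespace Pool.Agent.Helper39

open Filter Asymptotics

theorem GammaUp_attained {n r p : ℕ} (h : GammaUp p n r ≠ 0) :
    ∃ D : Orientation n r, gammaD p D = GammaUp p n r := by
  have hne : {m : ℕ | ∃ D : Orientation n r, gammaD p D = m}.Nonempty := by
    by_contra hcon
    rw [Set.not_nonempty_iff_eq_empty] at hcon
    apply h
    unfold GammaUp
    rw [hcon]; simp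
  exact Nat.sSup_mem hne bddAbove_gammaD

theorem nat_pow_le_imp {k j : ℕ} (hj : 1 ≤ j) {x : ℝ} (hx : 0 ≤ x) (h : (k : ℝ) ^ j ≤ x) :
    (k : ℝ) ≤ x ^ ((1 : ℝ) / (j : ℝ)) := by
  have hj0 : (j : ℝ) ≠ 0 := by
    have : j ≠ 0 := by omega
    exact_mod_cast this
  rw [one_div]
  rw [Real.le_rpow_inv_iff_of_pos (by positivity) hx (by positivity)]
  rwa [Real.rpow_natCast]

theorem upper_even_isBigO {r j : ℕ} (hj : 1 ≤ j) (hjr : 2 * j ≤ r) :
    (fun n : ℕ => (GammaUp 1 n r : ℝ)) =O[atTop]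
      fun n : ℕ => (Real.log n) ^ ((1 : ℝ) / (j : ℝ)) := by
  apply IsBigO.of_bound ((r : ℝ) + 2 * ((Real.log 2)⁻¹) ^ ((1 : ℝ) / (j : ℝ)))
  have hlog : ∀ᶠ n : ℕ in atTop, (1 : ℝ) ≤ Real.log n :=
    (Real.tendsto_log_atTop.comp tendsto_natCast_atTop_atTop).eventually_ge_atTop 1
  filter_upwards [hlog] with n hn
  have hl2 : 0 < Real.log 2 := Real.log_pos (by norm_num)
  have hpos : (1 : ℝ) ≤ (Real.log n) ^ ((1 : ℝ) / (j : ℝ)) :=
    Real.one_le_rpow hn (by positivity)
  have hpos2 : (0 : ℝ) ≤ ((Real.log 2)⁻¹) ^ ((1 : ℝ) / (j : ℝ)) := by positivity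
  rw [Real.norm_of_nonneg (by positivity), Real.norm_of_nonneg (by positivity)]
  by_cases hG : GammaUp 1 n r ≤ r
  · have h1 : (GammaUp 1 n r : ℝ) ≤ r := by exact_mod_cast hG
    have hr0 : (0 : ℝ) ≤ r := by positivity
    nlinarith
  push Not at hG
  obtain ⟨D, hD⟩ := GammaUp_attained (p := 1) (n := n) (r := r) (by omega)
  obtain ⟨k, hk⟩ : ∃ k, GammaUp 1 n r = k + 1 := ⟨GammaUp 1 n r - 1, by omega⟩
  have h1 := pow_two_bound hj hjr (k := k) (by omega) D (by omega)
  have h2 : (2 : ℝ) ^ (k ^ j) ≤ n := by exact_mod_cast h1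
  have h3 : ((k : ℝ) ^ j) * Real.log 2 ≤ Real.log n := by
    have := Real.log_le_log (by positivity) h2
    rw [Real.log_pow] at this
    push_cast at this
    exact this
  have h4 : (k : ℝ) ^ j ≤ (Real.log 2)⁻¹ * Real.log n := by
    rw [← div_eq_inv_mul, le_div_iff₀ hl2]
    exact h3
  have h5 := nat_pow_le_imp hj (by positivity) h4
  rw [Real.mul_rpow (by positivity) (by positivity)] at h5
  have h6 : (GammaUp 1 n r : ℝ) ≤ 2 * k := by
    rw [hk]
    push_cast
    have : (1 : ℝ) ≤ k := by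
      have : 1 ≤ k := by omega
      exact_mod_cast this
    linarith
  have hr0 : (0 : ℝ) ≤ r := by positivity
  nlinarith

theorem upper_odd_isBigO {r j : ℕ} (hj : 1 ≤ j) (hjr : 2 * j + 1 ≤ r) :
    (fun n : ℕ => (GammaUp 1 n r : ℝ)) =O[atTop]
      fun n : ℕ => (Real.log n / Real.log (Real.log n)) ^ ((1 : ℝ) / (j : ℝ)) := by
  apply IsBigO.of_bound ((r : ℝ) + 2 * (12 * (j : ℝ)) ^ ((1 : ℝ) / (j : ℝ)))
  have hlog : ∀ᶠ n : ℕ in atTop, (3 : ℝ) ≤ Real.log n :=
    (Real.tendsto_log_atTop.comp tendsto_natCast_atTop_atTop).eventually_ge_atTop 3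
  filter_upwards [hlog] with n hn
  set L := Real.log n with hL
  have hll : 0 < Real.log L := Real.log_pos (by linarith)
  have hLl : (1 : ℝ) ≤ L / Real.log L := by
    rw [one_le_div hll]
    have := Real.log_le_sub_one_of_pos (show (0 : ℝ) < L by linarith)
    linarith
  have hpos : (1 : ℝ) ≤ (L / Real.log L) ^ ((1 : ℝ) / (j : ℝ)) :=
    Real.one_le_rpow hLl (by positivity)
  have hpos2 : (0 : ℝ) ≤ (12 * (j : ℝ)) ^ ((1 : ℝ) / (j : ℝ)) := by positivity
  rw [Real.norm_of_nonneg (by positivity), Real.norm_of_nonneg (by linarith)]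
  by_cases hG : GammaUp 1 n r ≤ r
  · have h1 : (GammaUp 1 n r : ℝ) ≤ r := by exact_mod_cast hG
    have hr0 : (0 : ℝ) ≤ r := by positivity
    nlinarith
  push Not at hG
  obtain ⟨D, hD⟩ := GammaUp_attained (p := 1) (n := n) (r := r) (by omega)
  obtain ⟨k, hk⟩ : ∃ k, GammaUp 1 n r = k + 1 := ⟨GammaUp 1 n r - 1, by omega⟩
  have h2 := sqrt_pow_bound hj hjr (k := k) (by omega) D (by omega)
  have hk3 : 3 ≤ k := by omega
  have hk3r : (3 : ℝ) ≤ k := by exact_mod_cast hk3
  have hlk : 0 < Real.log k := Real.log_pos (by linarith)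
  have h3 : ((k : ℝ) ^ j) * Real.log k ≤ 6 * L := by
    have h4 := Real.log_le_log (by positivity) h2
    rw [Real.log_pow, Real.log_sqrt (by positivity)] at h4
    have h5 : k ^ j ≤ 3 * (k ^ j / 2) := by
      have : 3 ≤ k ^ j := le_trans hk3 (Nat.le_self_pow (by omega) k)
      omega
    have h6 : ((k : ℝ) ^ j) ≤ 3 * ((k ^ j / 2 : ℕ) : ℝ) := by exact_mod_cast h5
    have h7 : ((k : ℝ) ^ j) * Real.log k ≤ 3 * ((k ^ j / 2 : ℕ) : ℝ) * Real.log k :=
      mul_le_mul_of_nonneg_right h6 hlk.le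
    have h8 : 3 * ((k ^ j / 2 : ℕ) : ℝ) * Real.log k
        = 6 * (((k ^ j / 2 : ℕ) : ℝ) * (Real.log k / 2)) := by ring
    rw [h8] at h7
    linarith
  have hj1 : (1 : ℝ) ≤ j := by exact_mod_cast hj
  have h4 : (k : ℝ) ^ j ≤ 12 * j * (L / Real.log L) := by
    rw [← mul_div_assoc, le_div_iff₀ hll]
    rcases le_or_gt ((k : ℝ) ^ j) (Real.sqrt L) with hc | hc
    · have h5 : Real.log L ≤ 2 * Real.sqrt L := by
        have h6 : Real.log (Real.sqrt L) ≤ Real.sqrt L :=
          le_trans (Real.log_le_sub_one_of_pos (Real.sqrt_pos.mpr (by linarith))) (by linarith)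
        rw [Real.log_sqrt (by linarith)] at h6
        linarith
      have h7 : Real.sqrt L * Real.sqrt L = L := Real.mul_self_sqrt (by linarith)
      have h8 : 0 ≤ Real.sqrt L := Real.sqrt_nonneg _
      calc (k : ℝ) ^ j * Real.log L ≤ Real.sqrt L * (2 * Real.sqrt L) :=
            mul_le_mul hc h5 hll.le h8
        _ = 2 * L := by linarith
        _ ≤ 12 * j * L := by nlinarith
    · have h5 : Real.log L ≤ 2 * (j * Real.log k) := by
        have h6 : Real.log (Real.sqrt L) ≤ Real.log ((k : ℝ) ^ j) :=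
          Real.log_le_log (Real.sqrt_pos.mpr (by linarith)) hc.le
        rw [Real.log_sqrt (by linarith), Real.log_pow] at h6
        linarith
      calc (k : ℝ) ^ j * Real.log L ≤ (k : ℝ) ^ j * (2 * (j * Real.log k)) :=
            mul_le_mul_of_nonneg_left h5 (by positivity)
        _ = 2 * j * ((k : ℝ) ^ j * Real.log k) := by ring
        _ ≤ 2 * j * (6 * L) := mul_le_mul_of_nonneg_left h3 (by positivity)
        _ = 12 * j * L := by ring
  have h5 := nat_pow_le_imp hj (by positivity) h4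
  rw [Real.mul_rpow (by positivity) (by positivity)] at h5
  have h6 : (GammaUp 1 n r : ℝ) ≤ 2 * k := by
    rw [hk]
    push_cast
    linarith
  have hr0 : (0 : ℝ) ≤ r := by positivity
  nlinarith

end Pool.Agent.Helper39
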