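import Mathlib

set_option autoImplicit false

/-!
Walks in digraphs and the criterion used in the lower bound.
-/

namespace Pool.Agent.Helper39

variable {V : Type*}

/-- `pw N m a b`: there is a walk of length exactly `m` from `a` to `b` in the digraph `N`. -/
def pw (N : V → V → Prop) : ℕ → V → V → Prop
  | 0, a, b => a = b
  | m + 1, a, b => ∃ c, pw N m a c ∧ N c b

/-- The digraph `N` has no closed walk of length between `1` and `g`. -/
def NoShort (N : V → V → Prop) (g : ℕ) : Prop :=
  ∀ m, 1 ≤ m → m ≤ g → ∀ a, ¬ pw N m a a

/-- In every digraph on `r` vertices without closed walks of length at most `g`, some `p` vertices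
have no common out-neighbour outside themselves. -/
def Crit (p r g : ℕ) : Prop :=
  ∀ N : Fin r → Fin r → Prop, NoShort N g →
    ∃ P : Finset (Fin r), P.card = p ∧ ∀ u, u ∉ P → ∃ s ∈ P, ¬ N s u

end Pool.Agent.Helper39
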